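import Pool.Agent.R852.SP.Fin
import Pool.Agent.TH187.SA.Mult

set_option autoImplicit false
set_option linter.unusedSectionVars false
set_option linter.unusedVariables false

/-! # The irreducible flats of multiples of hyperplanes -/

namespace Pool.Agent.R852.SP

open Pool.Agent.TH187.SA (Occurs IsReesFlat zeros mult mem_zeros copies power IsIrreducibleFlat
  IsConstructible isReesFlat_multiple mem_zeros_copies power_le_copies)

variable {ι S : Type} [Fintype ι] [DecidableEq ι]

/-- the dot product as a bilinear form -/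
noncomputable def dB (ι : Type) [Fintype ι] [DecidableEq ι] : LinearMap.BilinForm ℂ (ι → ℂ) :=
  Matrix.toBilin' (1 : Matrix ι ι ℂ)

theorem dB_apply (x y : ι → ℂ) : dB ι x y = x ⬝ᵥ y := by
  unfold dB
  rw [Matrix.toBilin'_apply', Matrix.one_mulVec]

theorem dB_nondeg : (dB ι).Nondegenerate :=
  LinearMap.BilinForm.nondegenerate_toBilin'_of_det_ne_zero' _ (by
    rw [Matrix.det_one]; exact one_ne_zero)

theorem dB_refl : (dB ι).IsRefl := by
  intro x y h
  rw [dB_apply] at h ⊢
  rw [dotProduct_comm]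
  exact h

theorem mem_orth (P : Submodule ℂ (ι → ℂ)) (w : ι → ℂ) :
    w ∈ (dB ι).orthogonal P ↔ ∀ u ∈ P, u ⬝ᵥ w = 0 := by
  rw [LinearMap.BilinForm.mem_orthogonal_iff]
  exact forall₂_congr fun u _ => by rw [← dB_apply]

theorem orth_sup (P Q : Submodule ℂ (ι → ℂ)) (h : Disjoint P Q) :
    (dB ι).orthogonal P ⊔ (dB ι).orthogonal Q = ⊤ := by
  have h1 := LinearMap.BilinForm.orthogonal_orthogonal dB_nondeg dB_refl
    ((dB ι).orthogonal P ⊔ (dB ι).orthogonal Q)
  rw [← h1]
  have h2 : (dB ι).orthogonal ((dB ι).orthogonal P ⊔ (dB ι).orthogonal Q) = ⊥ := by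
    rw [eq_bot_iff]
    intro x hx
    have hP : x ∈ (dB ι).orthogonal ((dB ι).orthogonal P) := by
      rw [mem_orth]
      exact fun u hu => (mem_orth _ x).1 hx u (Submodule.mem_sup_left hu)
    have hQ : x ∈ (dB ι).orthogonal ((dB ι).orthogonal Q) := by
      rw [mem_orth]
      exact fun u hu => (mem_orth _ x).1 hx u (Submodule.mem_sup_right hu)
    rw [LinearMap.BilinForm.orthogonal_orthogonal dB_nondeg dB_refl] at hP hQ
    exact h.le_bot ⟨hP, hQ⟩
  rw [h2]
  rw [eq_top_iff]
  intro x _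
  rw [mem_orth]
  intro u hu
  rw [Submodule.mem_bot] at hu
  rw [hu, zero_dotProduct]

theorem mem_power (m : ℕ) (X : Submodule ℂ (ι → ℂ)) (x : ι × Fin m → ℂ) :
    x ∈ power m X ↔ ∀ k, (fun i => x (i, k)) ∈ X := Iff.rfl

theorem power_sup (m : ℕ) (P Q : Submodule ℂ (ι → ℂ)) (h : P ⊔ Q = ⊤) :
    power m P ⊔ power m Q = ⊤ := by
  rw [eq_top_iff]
  intro x _
  have h1 : ∀ k, ∃ y ∈ P, ∃ z ∈ Q, y + z = fun i => x (i, k) := fun k =>
    Submodule.mem_sup.1 (by rw [h]; trivial)
  choose y hy z hz hyz using h1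
  rw [Submodule.mem_sup]
  refine ⟨fun q => y q.2 q.1, fun k => hy k, fun q => z q.2 q.1, fun k => hz k, ?_⟩
  funext ⟨i, k⟩
  exact congrFun (hyz k) i

/-- **The irreducible flats of the multiples of hyperplanes.** -/
theorem irr_copies (m : ℕ) (α : S → ι → ℂ) (A : S → Prop)
    (X : Submodule ℂ (ι × Fin m → ℂ)) (hX : IsIrrFlat (fun s => zeros (copies m (α s))) A X) :
    ∃ X0, IsIrreducibleFlat α A X0 ∧ X = power m X0 := by
  obtain ⟨h1, h2, h3⟩ := hX
  have hm : 0 < m := by
    rw [Nat.pos_iff_ne_zero]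
    rintro rfl
    apply h1
    rw [eq_top_iff]
    intro x _
    have : x = 0 := by
      funext ⟨i, k⟩
      exact k.elim0
    rw [this]
    exact X.zero_mem
  set X0 : Submodule ℂ (ι → ℂ) :=
    { carrier := {w | ∀ s, A s → X ≤ zeros (copies m (α s)) → α s ⬝ᵥ w = 0}
      add_mem' := by
        intro x y hx hy s hs hXs
        rw [dotProduct_add, hx s hs hXs, hy s hs hXs, add_zero]
      zero_mem' := fun s _ _ => dotProduct_zero _
      smul_mem' := by
        intro r x hx s hs hXs
        rw [dotProduct_smul, hx s hs hXs, smul_zero] } with hX0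
  have hmem : ∀ w, w ∈ X0 ↔ ∀ s, A s → X ≤ zeros (copies m (α s)) → α s ⬝ᵥ w = 0 :=
    fun w => Iff.rfl
  have hXp : X = power m X0 := by
    apply le_antisymm
    · intro x hx k
      rw [hmem]
      intro s hs hXs
      exact (mem_zeros_copies m (α s) x).1 (hXs hx) k
    · intro x hx
      refine h2 x fun s hs hXs => ?_
      rw [mem_zeros_copies]
      exact fun k => (hmem _).1 (hx k) s hs hXs
  have hle : ∀ s, X ≤ zeros (copies m (α s)) ↔ ∀ x ∈ X0, α s ⬝ᵥ x = 0 := by
    intro s
    rw [hXp]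
    exact power_le_copies m hm (α s) X0
  refine ⟨X0, ⟨fun h => ?_, fun w hw => ?_, fun P Q hPQ hs => ?_⟩, hXp⟩
  · apply h1
    rw [hXp, h, eq_top_iff]
    intro x _ k
    trivial
  · rw [hmem]
    exact fun s hs hXs => hw s hs ((hle s).1 hXs)
  · have hP : ∀ (P : Submodule ℂ (ι → ℂ)) (s : S),
        power m ((dB ι).orthogonal P) ≤ zeros (copies m (α s)) ↔ α s ∈ P := by
      intro P s
      rw [power_le_copies m hm]
      have h4 : α s ∈ (dB ι).orthogonal ((dB ι).orthogonal P) ↔ α s ∈ P := by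
        rw [LinearMap.BilinForm.orthogonal_orthogonal dB_nondeg dB_refl]
      rw [← h4, mem_orth]
      refine forall₂_congr fun x _ => ?_
      rw [dotProduct_comm]
    have h4 := h3 (power m ((dB ι).orthogonal P)) (power m ((dB ι).orthogonal Q))
      (power_sup m _ _ (orth_sup P Q hPQ)) fun s hs' hXs => by
        rcases hs s hs' ((hle s).1 hXs) with h | h
        · exact Or.inl ((hP P s).2 h)
        · exact Or.inr ((hP Q s).2 h)
    rcases h4 with h4 | h4
    · exact Or.inl fun s hs' hx => (hP P s).1 (h4 s hs' ((hle s).2 hx))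
    · exact Or.inr fun s hs' hx => (hP Q s).1 (h4 s hs' ((hle s).2 hx))

/-- the irreducible flats of the multiples of hyperplanes are Rees flats if the rank is small or if
they are constructible -/
theorem rees_copies [Finite S] (m : ℕ) (α : S → ι → ℂ) (A : S → Prop)
    (h0 : ∀ s, A s → α s ≠ 0)
    (hX : ∀ X, IsIrreducibleFlat α A X → Fintype.card ι ≤ m + Module.finrank ℂ X ∨
      IsConstructible α A X ∧ 2 ≤ m) (X : Submodule ℂ (ι × Fin m → ℂ))
    (h : IsIrrFlat (fun s => zeros (copies m (α s))) A X) :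
    IsReesFlat (fun s => zeros (copies m (α s))) A X := by
  obtain ⟨X0, h1, rfl⟩ := irr_copies m α A X h
  refine isReesFlat_multiple m α A X0 h0 ?_
  rcases hX X0 h1 with h2 | h2
  · exact Or.inl ⟨h1, h2⟩
  · exact Or.inr h2

end Pool.Agent.R852.SP
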