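import Pool.Agent.R852.SP.Flat

set_option autoImplicit false
set_option linter.unusedSectionVars false
set_option linter.unusedVariables false

/-! # Flats of rational subspaces over different fields -/

namespace Pool.Agent.R852.SP

open Module

section rank

variable {𝕂 : Type} [Field 𝕂] {m n : Type} [Fintype m] [Fintype n] [DecidableEq m]
  [DecidableEq n]

theorem exists_factor (M : Matrix m n 𝕂) :
    ∃ (P : Matrix m (Fin M.rank) 𝕂) (Q : Matrix (Fin M.rank) n 𝕂), M = P * Q := by
  let f := Matrix.toLin' M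
  have hr : Module.finrank 𝕂 (LinearMap.range f) = M.rank := rfl
  let e : LinearMap.range f ≃ₗ[𝕂] (Fin M.rank → 𝕂) :=
    LinearEquiv.ofFinrankEq _ _ (by rw [hr]; simp)
  let g1 : (n → 𝕂) →ₗ[𝕂] (Fin M.rank → 𝕂) := e.toLinearMap ∘ₗ f.rangeRestrict
  let g2 : (Fin M.rank → 𝕂) →ₗ[𝕂] (m → 𝕂) := (LinearMap.range f).subtype ∘ₗ e.symm.toLinearMap
  refine ⟨LinearMap.toMatrix' g2, LinearMap.toMatrix' g1, ?_⟩
  rw [← LinearMap.toMatrix'_comp]
  have : g2 ∘ₗ g1 = f := by
    ext v i
    simp [g1, g2]
  rw [this]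
  simp [f]

theorem exists_lower_aux (f : (n → 𝕂) →ₗ[𝕂] (m → 𝕂)) (r : ℕ)
    (hr : Module.finrank 𝕂 (LinearMap.range f) = r) :
    ∃ (P : Matrix (Fin r) m 𝕂) (Q : Matrix n (Fin r) 𝕂),
      P * LinearMap.toMatrix' f * Q = 1 := by
  let e : LinearMap.range f ≃ₗ[𝕂] (Fin r → 𝕂) :=
    LinearEquiv.ofFinrankEq _ _ (by rw [hr]; simp)
  obtain ⟨s, hs⟩ := LinearMap.exists_rightInverse_of_surjective f.rangeRestrict
    f.range_rangeRestrict
  obtain ⟨p, hp⟩ := LinearMap.exists_leftInverse_of_injective (LinearMap.range f).subtype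
    (Submodule.ker_subtype _)
  refine ⟨LinearMap.toMatrix' (e.toLinearMap ∘ₗ p),
    LinearMap.toMatrix' (s ∘ₗ e.symm.toLinearMap), ?_⟩
  rw [← LinearMap.toMatrix'_comp, ← LinearMap.toMatrix'_comp]
  have : (e.toLinearMap ∘ₗ p) ∘ₗ f ∘ₗ (s ∘ₗ e.symm.toLinearMap) = LinearMap.id := by
    apply LinearMap.ext
    intro v
    have h1 : f (s (e.symm v)) = (LinearMap.range f).subtype (e.symm v) := by
      have := LinearMap.congr_fun hs (e.symm v)
      simp only [LinearMap.comp_apply, LinearMap.id_apply] at this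
      have h2 := congrArg Subtype.val this
      simpa using h2
    have h3 := LinearMap.congr_fun hp (e.symm v)
    simp only [LinearMap.comp_apply, LinearMap.id_apply] at h3
    simp only [LinearMap.comp_apply, LinearMap.id_apply, LinearEquiv.coe_coe]
    rw [h1, h3, LinearEquiv.apply_symm_apply]
  rw [LinearMap.comp_assoc, this, LinearMap.toMatrix'_id]

theorem exists_lower (M : Matrix m n 𝕂) :
    ∃ (P : Matrix (Fin M.rank) m 𝕂) (Q : Matrix n (Fin M.rank) 𝕂), P * M * Q = 1 := by
  obtain ⟨P, Q, h⟩ := exists_lower_aux (Matrix.toLin' M) M.rank rfl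
  refine ⟨P, Q, ?_⟩
  rwa [LinearMap.toMatrix'_toLin'] at h

theorem rank_map {K : Type} [Field K] (f : K →+* 𝕂) (M : Matrix m n K) :
    (M.map f).rank = M.rank := by
  apply le_antisymm
  · obtain ⟨P, Q, h⟩ := exists_factor M
    have h1 : M.map f = P.map f * Q.map f := by
      conv_lhs => rw [h]
      exact Matrix.map_mul
    rw [h1]
    refine (Matrix.rank_mul_le_left _ _).trans ?_
    refine (Matrix.rank_le_card_width _).trans ?_
    simp
  · obtain ⟨P, Q, h⟩ := exists_lower M
    have h1 : P.map f * M.map f * Q.map f = 1 := by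
      rw [← Matrix.map_mul, ← Matrix.map_mul, h]
      exact Matrix.map_one f (map_zero f) (map_one f)
    have h2 : (1 : Matrix (Fin M.rank) (Fin M.rank) 𝕂).rank ≤ (M.map f).rank := by
      rw [← h1]
      exact (Matrix.rank_mul_le_left _ _).trans (Matrix.rank_mul_le_right _ _)
    rw [Matrix.rank_one] at h2
    simpa using h2

end rank

variable {σ S : Type} [Fintype σ] [DecidableEq σ] [Fintype S] [DecidableEq S]
  {κ : S → Type} [∀ s, Fintype (κ s)] [∀ s, DecidableEq (κ s)]
  (c : (s : S) → κ s → σ → ℚ)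

/-- the linear map of the forms with the coefficients `c s j`, over `L` -/
noncomputable def cL (L : Type) [Field L] [Algebra ℚ L] (s : S) :
    (σ → L) →ₗ[L] (κ s → L) :=
  Matrix.mulVecLin ((Matrix.of (c s)).map (algebraMap ℚ L))

/-- the zeros of the forms with the coefficients `c s j`, over `L` -/
noncomputable def HL (L : Type) [Field L] [Algebra ℚ L] (s : S) : Submodule L (σ → L) :=
  LinearMap.ker (cL c L s)

/-- the matrix of all the forms of the subspaces with the indices in `B` -/
def stk (B : Finset S) : Matrix (Σ s, κ s) σ ℚ :=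
  Matrix.of fun q i => if q.1 ∈ B then c q.1 q.2 i else 0

variable (L : Type) [Field L] [Algebra ℚ L] (L' : Type) [Field L'] [Algebra ℚ L']

theorem stk_apply (B : Finset S) (x : σ → L) (s : S) (j : κ s) :
    Matrix.mulVec ((stk c B).map (algebraMap ℚ L)) x ⟨s, j⟩ =
      if s ∈ B then Matrix.mulVec ((Matrix.of (c s)).map (algebraMap ℚ L)) x j else 0 := by
  unfold Matrix.mulVec dotProduct stk
  split_ifs with h
  · simp [h]
  · simp [h]

theorem ker_stk (B : Finset S) :
    LinearMap.ker (Matrix.mulVecLin ((stk c B).map (algebraMap ℚ L))) = Zf (HL c L) B := by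
  ext x
  rw [mem_Zf, LinearMap.mem_ker]
  constructor
  · intro h s hs
    change cL c L s x = 0
    funext j
    have h1 := congrFun h ⟨s, j⟩
    rw [Matrix.mulVecLin_apply, stk_apply, if_pos hs] at h1
    rw [cL, Matrix.mulVecLin_apply]
    exact h1
  · intro h
    funext ⟨s, j⟩
    rw [Matrix.mulVecLin_apply, stk_apply]
    split_ifs with hs
    · have h1 : cL c L s x = 0 := h s hs
      have h2 := congrFun h1 j
      rw [cL, Matrix.mulVecLin_apply] at h2
      exact h2
    · rfl

theorem finrank_Zf (B : Finset S) :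
    finrank L (Zf (HL c L) B) + (stk c B).rank = Fintype.card σ := by
  have h1 := LinearMap.finrank_range_add_finrank_ker
    (Matrix.mulVecLin ((stk c B).map (algebraMap ℚ L)))
  rw [ker_stk, finrank_fintype_fun_eq_card] at h1
  have h2 : finrank L (LinearMap.range (Matrix.mulVecLin ((stk c B).map (algebraMap ℚ L)))) =
      (stk c B).rank := rank_map (algebraMap ℚ L) (stk c B)
  rw [h2] at h1
  omega

theorem finrank_Zf_eq (B : Finset S) :
    finrank L (Zf (HL c L) B) = finrank L' (Zf (HL c L') B) := by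
  have h1 := finrank_Zf c L B
  have h2 := finrank_Zf c L' B
  omega

theorem Zf_insert {K V : Type} [Field K] [AddCommGroup V] [Module K V] (H : S → Submodule K V)
    (s : S) (B : Finset S) : Zf H (insert s B) = H s ⊓ Zf H B := by
  ext x
  rw [Submodule.mem_inf, mem_Zf, mem_Zf]
  simp

theorem le_iff_finrank {K V : Type} [Field K] [AddCommGroup V] [Module K V]
    [FiniteDimensional K V] (H : S → Submodule K V) (s : S) (B : Finset S) :
    Zf H B ≤ H s ↔ finrank K (Zf H (insert s B)) = finrank K (Zf H B) := by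
  rw [Zf_insert]
  constructor
  · intro h
    rw [inf_eq_right.2 h]
  · intro h
    have h1 : H s ⊓ Zf H B = Zf H B := Submodule.eq_of_le_of_finrank_eq inf_le_right h
    exact inf_eq_right.1 h1

theorem top_iff_finrank {K V : Type} [Field K] [AddCommGroup V] [Module K V]
    [FiniteDimensional K V] (H : S → Submodule K V) (B C : Finset S) :
    Zf H B ⊔ Zf H C = ⊤ ↔
      finrank K (Zf H B) + finrank K (Zf H C) = finrank K V + finrank K (Zf H (B ∪ C)) := by
  rw [Zf_union, ← Submodule.finrank_sup_add_finrank_inf_eq]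
  constructor
  · intro h
    rw [h, finrank_top]
  · intro h
    exact Submodule.eq_top_of_finrank_eq (by omega)

theorem closed_iff (B : Finset S) : Closed (HL c L) B ↔ Closed (HL c L') B := by
  unfold Closed
  simp only [le_iff_finrank, finrank_Zf_eq c L L']

theorem sup_iff (B C : Finset S) :
    Zf (HL c L) B ⊔ Zf (HL c L) C = ⊤ ↔ Zf (HL c L') B ⊔ Zf (HL c L') C = ⊤ := by
  rw [top_iff_finrank, top_iff_finrank, finrank_fintype_fun_eq_card, finrank_fintype_fun_eq_card,
    finrank_Zf_eq c L L', finrank_Zf_eq c L L', finrank_Zf_eq c L L']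

theorem conn_iff (B : Finset S) : Conn (HL c L) B ↔ Conn (HL c L') B := by
  unfold Conn
  simp only [ne_eq, sup_iff c L L']

theorem res_iff (p : ℕ) (e : S → ℕ) (B : Finset S) (T : ℂ) :
    Res p (HL c L) e B T ↔ Res p (HL c L') e B T := by
  unfold Res
  rw [finrank_Zf_eq c L L', finrank_fintype_fun_eq_card, finrank_fintype_fun_eq_card]

theorem nested_iff (𝒩 : Finset (Finset S)) : Nested (HL c L) 𝒩 ↔ Nested (HL c L') 𝒩 := by
  unfold Nested
  simp only [sup_iff c L L']

theorem mA_eq (p : ℕ) (e : S → ℕ) (B : Finset S) (T : ℂ) :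
    mA p (HL c L) e B T = mA p (HL c L') e B T := by
  classical
  unfold mA mx
  simp only [closed_iff c L L', conn_iff c L L', res_iff c L L', nested_iff c L L']

end Pool.Agent.R852.SP
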