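import Pool.Agent.R852.SP.Irr

set_option autoImplicit false
set_option linter.unusedSectionVars false
set_option linter.unusedVariables false

/-! # The strong monodromy conjecture for products of powers of forms over linear ideals -/

namespace Pool.Agent.R852.SP

open Polynomial Pool.Agent.W427.SMC Pool.Agent.Y230.PT Pool.Agent.Y230.PS Pool.Agent.R852.PP
open Pool.Agent.TH187.SA (Occurs IsReesFlat zeros mult mem_zeros arrGen arr_roots codim_pos
  arrGen_ne)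
open Pool.Agent.TH192.DT (prodFam powProd)
open Pool.Agent.W574.SM (IsFunctionalEq)
open Pool.Agent.W574.LM (IsLocEq)
open Pool.Agent.H628R4.TP (IsBFunction)
open scoped ENNReal NNReal

variable {p : ℕ} [Fact p.Prime]

theorem rr_res {z : ℂ} {N ν : ℕ} (hν : 0 < ν) (h : z ^ N = (p : ℂ) ^ ν) :
    0 < N ∧ ((rr p z : ℝ) : ℂ) = -(ν : ℂ) / N := by
  have hp : (1 : ℝ) < p := by exact_mod_cast (Fact.out : p.Prime).one_lt
  have hN : 0 < N := by
    rw [Nat.pos_iff_ne_zero]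
    rintro rfl
    rw [pow_zero] at h
    have h1 := congrArg norm h
    rw [norm_pow, Complex.norm_natCast, norm_one] at h1
    exact (one_lt_pow₀ hp hν.ne').ne h1
  refine ⟨hN, ?_⟩
  obtain ⟨n, rfl⟩ := Nat.exists_eq_succ_of_ne_zero hν.ne'
  rw [rr_cone n N hN z h]
  push_cast
  rfl

variable {σ S T : Type} [Fintype σ] [DecidableEq σ] [Fintype S] [DecidableEq S] [Fintype T]
  [DecidableEq T] {κ : S → Type} [∀ s, Fintype (κ s)] [∀ s, DecidableEq (κ s)]
  (c : (s : S) → κ s → σ → ℚ) (e : T → S → ℕ) (a : T → ℕ)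

/-- the coefficients over `ℂ` -/
def cC (s : S) (j : κ s) (i : σ) : ℂ := (c s j i : ℂ)

theorem cC_ne (hc : ∀ s, ∃ j, c s j ≠ 0) (s : S) : ∃ j, cC c s j ≠ 0 := by
  obtain ⟨j, hj⟩ := hc s
  refine ⟨j, fun h => hj ?_⟩
  funext i
  have h1 := congrFun h i
  have h2 : (c s j i : ℂ) = 0 := h1
  exact_mod_cast h2

theorem sum_Nu (X : Submodule ℂ (σ → ℂ)) :
    ∑ q : Σ t, Fin (a t), mult (fun s => zeros (cC c s)) (e q.1) X = Nu c e a X := by
  rw [Fintype.sum_sigma]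
  unfold Nu
  refine Finset.sum_congr rfl fun t _ => ?_
  simp only [Finset.sum_const, Finset.card_univ, Fintype.card_fin, smul_eq_mul]
  rfl

theorem occ_eq : (fun s => ∃ q : Σ t, Fin (a t), e q.1 s ≠ 0) = Occurs e a := by
  funext s
  apply propext
  constructor
  · rintro ⟨q, hq⟩
    exact ⟨q.1, fun h => by have := q.2.2; omega, hq⟩
  · rintro ⟨t, h, h'⟩
    exact ⟨⟨t, ⟨0, Nat.pos_of_ne_zero h⟩⟩, h'⟩

/-- **The roots, with multiplicities.** -/
theorem split_b (hc : ∀ s, ∃ j, c s j ≠ 0) (t0 : T) (ht0 : a t0 ≠ 0) (b : ℂ[X])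
    (hb : IsBFunction (MvPolynomial.map (algebraMap ℚ ℂ) (arrForm c e a)) b) :
    ∃ b' : ℂ[X], b = phiA a * b' ∧ ∀ X, IsReesFlat (sub c) (Occurs e a) X →
      0 < Nu c e a X →
        b'.eval (-((Fintype.card σ - Module.finrank ℂ X : ℕ) : ℂ) / (Nu c e a X : ℕ)) = 0 := by
  have hb1 : IsBFunction (form a 1 fun t => arrGen (cC c) (e t)) b := by
    unfold form
    rw [map_one, one_mul, ← arrForm_C]
    rw [map_arrForm] at hb
    exact hb
  obtain ⟨b', h1, h2⟩ := functionalEq_strong a 1 (fun t => arrGen (cC c) (e t)) one_ne_zero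
    (fun t => arrGen_ne (cC c) (cC_ne c hc) (e t)) t0 ht0 b hb1
  refine ⟨b', h1, fun X hX hN => ?_⟩
  have h3 : gen a (1 : MvPolynomial σ ℂ) (fun t => arrGen (cC c) (e t)) =
      prodFam fun q : Σ t, Fin (a t) => arrGen (cC c) (e q.1) := by
    funext J
    unfold gen
    rw [one_mul]
  rw [h3] at h2
  have h4 : IsLocEq 1 (prodFam fun q : Σ t, Fin (a t) => arrGen (cC c) (e q.1)) b' := by
    obtain ⟨U, P, h5, h6⟩ := h2
    refine ⟨U, P, h5, fun s => ?_⟩
    rw [one_mul]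
    exact h6 s
  have h5 := arr_roots (cC c) (fun q : Σ t, Fin (a t) => e q.1) b' 1
    (by rw [map_one]; exact one_ne_zero) h4 X (by rw [occ_eq]; exact hX) 0
    (by rw [sum_Nu]; exact hN)
  rw [sum_Nu, Nat.cast_zero, add_zero] at h5
  exact h5

/-- the order of the pole and the multiplicity of the root, in terms of the resonant flats -/
theorem dvd_b (hc : ∀ s, ∃ j, c s j ≠ 0) (t0 : T) (ht0 : a t0 ≠ 0) (b : ℂ[X])
    (hb : IsBFunction (MvPolynomial.map (algebraMap ℚ ℂ) (arrForm c e a)) b) (z : ℂ) (k : ℕ)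
    (hk : k ≤ 1) (h : k = 1 → ∃ X, IsReesFlat (sub c) (Occurs e a) X ∧
      z ^ Nu c e a X = (p : ℂ) ^ (Fintype.card σ - Module.finrank ℂ X)) :
    (X - C ((rr p z : ℝ) : ℂ)) ^ (k + cnt p a z) ∣ b := by
  obtain ⟨b', h1, h2⟩ := split_b c e a hc t0 ht0 b hb
  rw [h1, add_comm, pow_add]
  refine mul_dvd_mul ((pow_dvd_pow _ (cnt_le a z)).trans (cntR_dvd a _)) ?_
  rcases Nat.le_one_iff_eq_zero_or_eq_one.1 hk with rfl | rfl
  · rw [pow_zero]
    exact one_dvd _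
  · obtain ⟨Y, hY, hz⟩ := h rfl
    have hpos : 0 < Fintype.card σ - Module.finrank ℂ Y := codim_pos hY
    obtain ⟨hN, hr⟩ := rr_res (p := p) hpos hz
    rw [pow_one, dvd_iff_isRoot, IsRoot.def, hr]
    exact h2 Y hY hN

/-- the zeta function as a rational function -/
theorem rat_arr (hc : ∀ s, ∃ j, c s j ≠ 0) :
    ∃ D P : ℂ[X], D ≠ 0 ∧ (∀ s : ℝ, 0 ≤ s →
      D.eval ((tr' p s : ℝ) : ℂ) * Pool.Agent.Y230.PS.FF (fun _ : Fin 1 =>
        MvPolynomial.map (algebraMap ℚ ℚ_[p]) (arrForm c e a)) s =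
          P.eval ((tr' p s : ℝ) : ℂ)) ∧
      ∀ z, z ≠ 0 → D.rootMultiplicity z ≤ mO p c e a z + cnt p a z := by
  obtain ⟨D, P, h1, h2, h3⟩ := (FR_form (p := p) c hc e a).rat
  refine ⟨D, P, h1, h2, fun z hz => ?_⟩
  have h4 := h3 z hz
  unfold Pool.Agent.Y230.PS.tr at h4
  split_ifs at h4 with h5
  · have h6 : D.rootMultiplicity z = 0 := by exact_mod_cast le_antisymm h4 bot_le
    omega
  · have h6 : ((D.rootMultiplicity z : ℕ) : ℕ∞) ≤
        ((mO p c e a z + cnt p a z : ℕ) : ℕ∞) := by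
      push_cast
      exact h4
    exact_mod_cast h6

section final

variable (Z : ℂ → ℂ) (hZ : MeromorphicOn Z Set.univ)
  (hZp : ∀ s : ℂ, 0 < s.re → Z s = zetaQ p (arrForm c e a) s)

include hZ hZp in
theorem order_arr (hc : ∀ s, ∃ j, c s j ≠ 0) (s₀ : ℂ) :
    ((-((mO p c e a (pw p s₀) + cnt p a (pw p s₀) : ℕ) : ℤ) : ℤ) : WithTop ℤ) ≤
      meromorphicOrderAt Z s₀ := by
  obtain ⟨D, P, hD0, h1, h2⟩ := rat_arr (p := p) c e a hc
  have h3 := mero_bound p D P hD0 Z hZ (fun s hs => by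
    rw [pw_real, hZp s (by simpa using hs), zetaQ_eq, ← FF_hyp]
    exact h1 s hs.le) s₀
  refine le_trans ?_ h3
  have h4 := h2 (pw p s₀) (pw_ne_zero p s₀)
  exact_mod_cast neg_le_neg (Int.ofNat_le.2 h4)

theorem lev_of_res (s₀ : ℂ) (X : Submodule ℂ (σ → ℂ)) (hX : X ≠ ⊤)
    (hz : (pw p s₀) ^ Nu c e a X = (p : ℂ) ^ (Fintype.card σ - Module.finrank ℂ X)) :
    ((Fintype.card σ - Module.finrank ℂ X : ℕ) : ℝ) = -s₀.re * Nu c e a X := by
  have hr : rr p (pw p s₀) = s₀.re := pw_norm p s₀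
  have hpos : 0 < Fintype.card σ - Module.finrank ℂ X := by
    have h2 := Submodule.finrank_lt hX
    rw [Module.finrank_fintype_fun_eq_card] at h2
    omega
  obtain ⟨hN, h5⟩ := rr_res (p := p) hpos hz
  rw [hr] at h5
  have h6 : (s₀.re : ℂ) * (Nu c e a X : ℕ) =
      -((Fintype.card σ - Module.finrank ℂ X : ℕ) : ℂ) := by
    rw [h5, div_mul_cancel₀]
    exact_mod_cast hN.ne'
  have h7 : s₀.re * (Nu c e a X : ℝ) =
      -((Fintype.card σ - Module.finrank ℂ X : ℕ) : ℝ) := by exact_mod_cast h6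
  linarith

include hZ hZp in
/-- **The real parts of the poles are roots.** -/
theorem root_arr (hc : ∀ s, ∃ j, c s j ≠ 0) (s₀ : ℂ)
    (hR : ∀ X, IsIrrFlat (sub c) (Occurs e a) X →
      ((Fintype.card σ - Module.finrank ℂ X : ℕ) : ℝ) = -s₀.re * Nu c e a X →
      IsReesFlat (sub c) (Occurs e a) X)
    (b : ℂ[X]) (hb : IsBFunction (MvPolynomial.map (algebraMap ℚ ℂ) (arrForm c e a)) b)
    (hs : meromorphicOrderAt Z s₀ < 0) : b.eval (s₀.re : ℂ) = 0 := by
  have h1 := order_arr c e a Z hZ hZp hc s₀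
  have h2 : 0 < mO p c e a (pw p s₀) + cnt p a (pw p s₀) := by
    by_contra h
    have h3 : mO p c e a (pw p s₀) + cnt p a (pw p s₀) = 0 := by omega
    rw [h3] at h1
    exact absurd (lt_of_le_of_lt h1 hs) (by simp)
  have hr : rr p (pw p s₀) = s₀.re := pw_norm p s₀
  have key : ∀ k, k ≤ 1 → (k = 1 → 1 ≤ mO p c e a (pw p s₀)) → 0 < k + cnt p a (pw p s₀) →
      b.eval (s₀.re : ℂ) = 0 := by
    intro k hk hk1 hpos
    have ht : ∃ t0, a t0 ≠ 0 := by
      by_contra hcon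
      push Not at hcon
      have h4 : cnt p a (pw p s₀) = 0 := by
        classical
        unfold cnt
        rw [Finset.card_eq_zero, Finset.filter_eq_empty_iff]
        intro t _ h
        rw [hcon t, pow_zero] at h
        have h5 : (p : ℂ) ≠ 1 := by exact_mod_cast (Fact.out : p.Prime).one_lt.ne'
        exact h5 h.symm
      have h5 : k = 1 := by omega
      obtain ⟨X, hX, -⟩ := exists_res c e a hc p _ (hk1 h5)
      apply hX.1
      rw [eq_top_iff]
      intro v _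
      refine hX.2.1 v fun s hs => ?_
      obtain ⟨t, ht, _⟩ := hs
      exact absurd (hcon t) ht
    obtain ⟨t0, ht0⟩ := ht
    have h6 := dvd_b (p := p) c e a hc t0 ht0 b hb (pw p s₀) k hk fun h => by
      obtain ⟨X, hX, hz⟩ := exists_res c e a hc p _ (hk1 h)
      exact ⟨X, hR X hX (lev_of_res c e a s₀ X hX.1 hz), hz⟩
    rw [hr] at h6
    exact dvd_iff_isRoot.1 ((dvd_pow_self _ hpos.ne').trans h6)
  by_cases h7 : 1 ≤ mO p c e a (pw p s₀)
  · exact key 1 le_rfl (fun _ => h7) (by omega)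
  · exact key 0 (by omega) (fun h => by omega) (by omega)

include hZ hZp in
/-- **The orders of the poles are at most the multiplicities of the roots.** -/
theorem mult_arr (hc : ∀ s, ∃ j, c s j ≠ 0) (ht : ∃ t, a t ≠ 0) (s₀ : ℂ)
    (hR : ∀ X, IsIrrFlat (sub c) (Occurs e a) X →
      ((Fintype.card σ - Module.finrank ℂ X : ℕ) : ℝ) = -s₀.re * Nu c e a X →
      IsReesFlat (sub c) (Occurs e a) X)
    (b : ℂ[X]) (hb0 : b ≠ 0)
    (hb : IsBFunction (MvPolynomial.map (algebraMap ℚ ℂ) (arrForm c e a)) b)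
    (hS : ∀ X Y, IsIrrFlat (sub c) (Occurs e a) X → IsIrrFlat (sub c) (Occurs e a) Y → X ≠ Y →
      (X ≤ Y ∨ X ⊔ Y = ⊤) →
      ((Fintype.card σ - Module.finrank ℂ X : ℕ) : ℝ) = -s₀.re * Nu c e a X →
      ((Fintype.card σ - Module.finrank ℂ Y : ℕ) : ℝ) ≠ -s₀.re * Nu c e a Y) :
    ((-(b.rootMultiplicity (s₀.re : ℂ) : ℤ) : ℤ) : WithTop ℤ) ≤ meromorphicOrderAt Z s₀ := by
  have h1 := order_arr c e a Z hZ hZp hc s₀
  refine le_trans ?_ h1
  have hr : rr p (pw p s₀) = s₀.re := pw_norm p s₀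
  obtain ⟨t0, ht0⟩ := ht
  have hle : mO p c e a (pw p s₀) ≤ 1 := by
    by_contra hcon
    obtain ⟨X, Y, hX, hY, hne, hXY, hzX, hzY⟩ := exists_two c e a hc p _ (by
      have : 2 ≤ mO p c e a (pw p s₀) := by omega
      exact this)
    exact hS X Y hX hY hne hXY (lev_of_res c e a s₀ X hX.1 hzX)
      (lev_of_res c e a s₀ Y hY.1 hzY)
  have h6 := dvd_b (p := p) c e a hc t0 ht0 b hb (pw p s₀) _ hle fun h => by
    obtain ⟨X, hX, hz⟩ := exists_res c e a hc p _ h.ge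
    exact ⟨X, hR X hX (lev_of_res c e a s₀ X hX.1 hz), hz⟩
  rw [hr] at h6
  have h7 := (le_rootMultiplicity_iff hb0).2 h6
  exact_mod_cast neg_le_neg (Int.ofNat_le.2 h7)

end final

/-- the zeta function of an integer polynomial -/
theorem igusa_Q {V : Type} [Fintype V] (F : MvPolynomial V ℤ) (s : ℂ) :
    igusaZeta p F s = zetaQ p (MvPolynomial.map (Int.castRingHom ℚ) F) s := by
  unfold igusaZeta zetaQ
  congr 1
  funext x
  congr 2
  rw [PadicInt.norm_def]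
  congr 1
  rw [MvPolynomial.eval₂_map]
  have h1 : (algebraMap ℚ ℚ_[p]).comp (Int.castRingHom ℚ) =
      (algebraMap ℤ_[p] ℚ_[p]).comp (algebraMap ℤ ℤ_[p]) := RingHom.ext_int _ _
  rw [h1, ← MvPolynomial.coe_eval₂Hom, MvPolynomial.aeval_def]
  change (algebraMap ℤ_[p] ℚ_[p]) (MvPolynomial.eval₂ (algebraMap ℤ ℤ_[p]) x F) = _
  rw [← MvPolynomial.coe_eval₂Hom]
  exact (MvPolynomial.hom_eval₂ F (algebraMap ℤ ℤ_[p]) (algebraMap ℤ_[p] ℚ_[p]) x)

end Pool.Agent.R852.SP
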