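import Mathlib

set_option autoImplicit false
set_option linter.unusedSectionVars false
set_option linter.unusedVariables false

/-! # The flats of a family of subspaces -/

namespace Pool.Agent.R852.SP

variable {S : Type} [DecidableEq S] {K V : Type} [Field K] [AddCommGroup V] [Module K V]

/-- The intersection of the subspaces with the indices in `A`. -/
def Zf (H : S → Submodule K V) (A : Finset S) : Submodule K V := ⨅ i ∈ A, H i

/-- `A` consists of all the indices of the subspaces which contain the flat of `A`. -/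
def Closed (H : S → Submodule K V) (A : Finset S) : Prop := ∀ i, Zf H A ≤ H i → i ∈ A

/-- `A` is not empty, and the flat `X` of `A` is irreducible: if `A` is the disjoint union of `B`
and `A \ B`, both different from `∅`, then the sum of the flats of `B` and `A \ B` is not the whole
space. -/
def Conn (H : S → Submodule K V) (A : Finset S) : Prop :=
  A.Nonempty ∧ ∀ B ⊆ A, B.Nonempty → (A \ B).Nonempty → Zf H B ⊔ Zf H (A \ B) ≠ ⊤

/-- `T ^ N = p ^ codim`, where `N` is the sum of the `e i`, `i ∈ A`, and `codim` is the codimension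
of the flat of `A` -/
def Res (p : ℕ) (H : S → Submodule K V) (e : S → ℕ) (A : Finset S) (T : ℂ) : Prop :=
  T ^ (∑ i ∈ A, e i) = (p : ℂ) ^ (Module.finrank K V - Module.finrank K (Zf H A))

/-- Of any two members of `𝒩`, one is contained in the other, or their flats span the space. -/
def Nested (H : S → Submodule K V) (𝒩 : Finset (Finset S)) : Prop :=
  ∀ B ∈ 𝒩, ∀ C ∈ 𝒩, B ⊆ C ∨ C ⊆ B ∨ Zf H B ⊔ Zf H C = ⊤

open Classical in
/-- the maximal number of elements of a nested subset -/
noncomputable def mx (H : S → Submodule K V) (𝒮 : Finset (Finset S)) : ℕ :=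
  (𝒮.powerset.filter fun 𝒩 => Nested H 𝒩).sup Finset.card

/-- the maximal number of the resonant irreducible flats in a nested set -/
noncomputable def mA (p : ℕ) (H : S → Submodule K V) (e : S → ℕ) (A : Finset S) (T : ℂ) : ℕ :=
  open Classical in mx H (A.powerset.filter fun B => Closed H B ∧ Conn H B ∧ Res p H e B T)

/-- the same number, for proper subsets -/
noncomputable def mB (p : ℕ) (H : S → Submodule K V) (e : S → ℕ) (A : Finset S) (T : ℂ) : ℕ :=
  open Classical in mx H (A.ssubsets.filter fun B => Closed H B ∧ Conn H B ∧ Res p H e B T)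

variable {H : S → Submodule K V} {e : S → ℕ} {A B : Finset S} {p : ℕ}

theorem mem_Zf {x : V} : x ∈ Zf H A ↔ ∀ i ∈ A, x ∈ H i := by
  unfold Zf
  simp [Submodule.mem_iInf]

theorem Zf_le {i : S} (hi : i ∈ A) : Zf H A ≤ H i := fun x hx => mem_Zf.1 hx i hi

theorem Zf_anti (h : A ⊆ B) : Zf H B ≤ Zf H A := fun x hx => mem_Zf.2 fun i hi =>
  mem_Zf.1 hx i (h hi)

theorem Zf_union : Zf H (A ∪ B) = Zf H A ⊓ Zf H B := by
  ext x
  rw [Submodule.mem_inf, mem_Zf, mem_Zf, mem_Zf]
  constructor
  · intro h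
    exact ⟨fun i hi => h i (Finset.mem_union_left _ hi), fun i hi =>
      h i (Finset.mem_union_right _ hi)⟩
  · rintro ⟨h1, h2⟩ i hi
    rcases Finset.mem_union.1 hi with h | h
    · exact h1 i h
    · exact h2 i h

theorem mx_mono {𝒮 𝒮' : Finset (Finset S)} (h : 𝒮 ⊆ 𝒮') : mx H 𝒮 ≤ mx H 𝒮' := by
  classical
  refine Finset.sup_mono fun 𝒩 h𝒩 => ?_
  rw [Finset.mem_filter, Finset.mem_powerset] at h𝒩 ⊢
  exact ⟨h𝒩.1.trans h, h𝒩.2⟩

theorem card_le_mx {𝒮 𝒩 : Finset (Finset S)} (h : 𝒩 ⊆ 𝒮) (h' : Nested H 𝒩) :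
    𝒩.card ≤ mx H 𝒮 := by
  classical
  exact Finset.le_sup (f := Finset.card) (Finset.mem_filter.2 ⟨Finset.mem_powerset.2 h, h'⟩)

theorem exists_mx (𝒮 : Finset (Finset S)) : ∃ 𝒩 ⊆ 𝒮, Nested H 𝒩 ∧ 𝒩.card = mx H 𝒮 := by
  classical
  have h1 : (𝒮.powerset.filter fun 𝒩 => Nested H 𝒩).Nonempty :=
    ⟨∅, Finset.mem_filter.2 ⟨Finset.mem_powerset.2 (Finset.empty_subset _), fun B hB => by
      simp at hB⟩⟩
  obtain ⟨𝒩, h2, h3⟩ := Finset.exists_mem_eq_sup _ h1 Finset.card
  rw [Finset.mem_filter, Finset.mem_powerset] at h2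
  exact ⟨𝒩, h2.1, h2.2, h3.symm⟩

theorem mA_le_mB (T : ℂ) (h : B ⊂ A) : mA p H e B T ≤ mB p H e A T := by
  classical
  refine mx_mono fun C hC => ?_
  rw [Finset.mem_filter, Finset.mem_powerset] at hC
  rw [Finset.mem_filter, Finset.mem_ssubsets]
  exact ⟨lt_of_le_of_lt hC.1 h, hC.2⟩

theorem mB_le (T : ℂ) : mB p H e A T ≤ mA p H e A T := by
  classical
  refine mx_mono fun C hC => ?_
  rw [Finset.mem_filter, Finset.mem_ssubsets] at hC
  rw [Finset.mem_filter, Finset.mem_powerset]
  exact ⟨hC.1.1, hC.2⟩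

open Classical in
theorem mB_add (T : ℂ) (h1 : Closed H A) (h2 : Conn H A) :
    mB p H e A T + (if Res p H e A T then 1 else 0) ≤ mA p H e A T := by
  by_cases h : Res p H e A T
  · rw [if_pos h]
    unfold mB mA
    obtain ⟨𝒩, h3, h4, h5⟩ := exists_mx (H := H)
      (A.ssubsets.filter fun B => Closed H B ∧ Conn H B ∧ Res p H e B T)
    rw [← h5, ← Finset.card_insert_of_notMem (a := A)]
    · refine card_le_mx (fun C hC => ?_) fun B hB C hC => ?_
      · rw [Finset.mem_insert] at hC
        rw [Finset.mem_filter, Finset.mem_powerset]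
        rcases hC with rfl | hC
        · exact ⟨le_refl _, h1, h2, h⟩
        · have h6 := h3 hC
          rw [Finset.mem_filter, Finset.mem_ssubsets] at h6
          exact ⟨h6.1.1, h6.2⟩
      · have hsub : ∀ D ∈ 𝒩, D ⊆ A := fun D hD => by
          have h6 := h3 hD
          rw [Finset.mem_filter, Finset.mem_ssubsets] at h6
          exact h6.1.1
        rcases Finset.mem_insert.1 hB with rfl | hB'
        · rcases Finset.mem_insert.1 hC with rfl | hC'
          · exact Or.inl (le_refl _)
          · exact Or.inr (Or.inl (hsub C hC'))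
        · rcases Finset.mem_insert.1 hC with rfl | hC'
          · exact Or.inl (hsub B hB')
          · exact h4 B hB' C hC'
    · intro h6
      have h7 := h3 h6
      rw [Finset.mem_filter, Finset.mem_ssubsets] at h7
      exact lt_irrefl _ h7.1
  · rw [if_neg h, add_zero]
    exact mB_le T

theorem mA_split (T : ℂ) (hB : B ⊆ A) (htop : Zf H B ⊔ Zf H (A \ B) = ⊤) :
    mA p H e B T + mA p H e (A \ B) T ≤ mA p H e A T := by
  classical
  unfold mA
  obtain ⟨𝒩, h3, h4, h5⟩ := exists_mx (H := H)
    (B.powerset.filter fun B => Closed H B ∧ Conn H B ∧ Res p H e B T)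
  obtain ⟨𝒩', h3', h4', h5'⟩ := exists_mx (H := H)
    ((A \ B).powerset.filter fun B => Closed H B ∧ Conn H B ∧ Res p H e B T)
  rw [← h5, ← h5', ← Finset.card_union_of_disjoint]
  · refine card_le_mx (fun C hC => ?_) fun D hD C hC => ?_
    · rw [Finset.mem_union] at hC
      rw [Finset.mem_filter, Finset.mem_powerset]
      rcases hC with h | h
      · have h6 := h3 h
        rw [Finset.mem_filter, Finset.mem_powerset] at h6
        exact ⟨h6.1.trans hB, h6.2⟩
      · have h6 := h3' h
        rw [Finset.mem_filter, Finset.mem_powerset] at h6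
        exact ⟨h6.1.trans Finset.sdiff_subset, h6.2⟩
    · have hs1 : ∀ E ∈ 𝒩, Zf H B ≤ Zf H E := fun E hE => by
        have h6 := h3 hE
        rw [Finset.mem_filter, Finset.mem_powerset] at h6
        exact Zf_anti h6.1
      have hs2 : ∀ E ∈ 𝒩', Zf H (A \ B) ≤ Zf H E := fun E hE => by
        have h6 := h3' hE
        rw [Finset.mem_filter, Finset.mem_powerset] at h6
        exact Zf_anti h6.1
      rcases Finset.mem_union.1 hD with hD | hD
      · rcases Finset.mem_union.1 hC with hC | hC
        · exact h4 D hD C hC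
        · refine Or.inr (Or.inr ?_)
          rw [eq_top_iff, ← htop]
          exact sup_le_sup (hs1 D hD) (hs2 C hC)
      · rcases Finset.mem_union.1 hC with hC | hC
        · refine Or.inr (Or.inr ?_)
          rw [eq_top_iff, ← htop, sup_comm (Zf H B)]
          exact sup_le_sup (hs2 D hD) (hs1 C hC)
        · exact h4' D hD C hC
  · rw [Finset.disjoint_left]
    intro C h1 h2
    have h1' := h3 h1
    have h2' := h3' h2
    rw [Finset.mem_filter, Finset.mem_powerset] at h1' h2'
    obtain ⟨x, hx⟩ := h1'.2.2.1.1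
    exact (Finset.mem_sdiff.1 (h2'.1 hx)).2 (h1'.1 hx)

/-- the parts of a decomposition are closed -/
theorem closed_part (hH : ∀ i, H i ≠ ⊤) (hA : Closed H A) (hB : B ⊆ A)
    (h : Zf H B ⊔ Zf H (A \ B) = ⊤) : Closed H B := by
  intro i hi
  have h1 : i ∈ A := hA i ((Zf_anti hB).trans hi)
  by_contra h2
  apply hH i
  rw [eq_top_iff, ← h]
  exact sup_le hi (Zf_le (Finset.mem_sdiff.2 ⟨h1, h2⟩))

end Pool.Agent.R852.SP
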