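import Pool.Agent.R852.SP.Int
import Pool.Agent.R852.SP.Flat

set_option autoImplicit false
set_option linter.unusedSectionVars false
set_option linter.unusedVariables false

/-! # The zeta functions of products of linear subspaces over `ℚ_p` -/

namespace Pool.Agent.R852.SP

open MeasureTheory Metric Pool.Agent.W427.SMC Pool.Agent.Y230.PT Pool.Agent.Y230.PS
open scoped ENNReal NNReal Topology

attribute [local instance] msK bsK msZ bsZ

variable {p : ℕ} [Fact p.Prime] {σ S : Type} [Fintype σ] [DecidableEq S]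
  {κ : S → Type} [∀ i, Fintype (κ i)]

/-- the kernels -/
noncomputable def Hk (c : (i : S) → (σ → ℚ_[p]) →ₗ[ℚ_[p]] (κ i → ℚ_[p])) (i : S) :
    Submodule ℚ_[p] (σ → ℚ_[p]) := LinearMap.ker (c i)

/-- the product of the norms -/
noncomputable def ww (c : (i : S) → (σ → ℚ_[p]) →ₗ[ℚ_[p]] (κ i → ℚ_[p])) (e : S → ℕ)
    (A : Finset S) (x : σ → ℚ_[p]) : ℝ := ∏ i ∈ A, ‖c i x‖ ^ e i

variable (c : (i : S) → (σ → ℚ_[p]) →ₗ[ℚ_[p]] (κ i → ℚ_[p])) (e : S → ℕ)

theorem c_cont (i : S) : Continuous (c i) := LinearMap.continuous_of_finiteDimensional _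

theorem ww_nonneg (A : Finset S) (x : σ → ℚ_[p]) : 0 ≤ ww c e A x :=
  Finset.prod_nonneg fun i _ => pow_nonneg (norm_nonneg _) _

theorem ww_cont (A : Finset S) : Continuous (ww c e A) :=
  continuous_finsetProd _ fun i _ => ((c_cont c i).norm).pow _

theorem ww_split {A B : Finset S} (h : B ⊆ A) (x : σ → ℚ_[p]) :
    ww c e A x = ww c e B x * ww c e (A \ B) x := by
  unfold ww
  rw [mul_comm, Finset.prod_sdiff h]

/-- local constancy of the norm -/
theorem norm_const {E : Type} [NormedAddCommGroup E] [IsUltrametricDist E] {x y : E}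
    (h : ‖y - x‖ < ‖x‖) : ‖y‖ = ‖x‖ := by
  have h1 : y = x + (y - x) := by abel
  rw [h1, IsUltrametricDist.norm_add_eq_max_of_norm_ne_norm h.ne', max_eq_left h.le]

theorem step1 (A : Finset S) (hA : Closed (Hk c) A)
    (IH : ∀ B, B ⊂ A → Closed (Hk c) B → ∀ U : Set (σ → ℚ_[p]), CO U →
      FR p (fun T => (mA p (Hk c) e B T : ℕ∞)) (FE (NU p σ) (ww c e B) U))
    (U : Set (σ → ℚ_[p])) (hU : CO U) (h0 : ∀ x ∈ U, x ∉ Zf (Hk c) A) :
    FR p (fun T => (mB p (Hk c) e A T : ℕ∞)) (FE (NU p σ) (ww c e A) U) := by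
  classical
  refine co_local (fun E => FR p (fun T => (mB p (Hk c) e A T : ℕ∞))
    (FE (NU p σ) (ww c e A) E)) (FR_empty _ _) (fun E F hE hF hd h1 h2 =>
      FR_union _ (ww_cont c e A) hE hF hd h1 h2) U hU fun x hx => ?_
  set B : Finset S := A.filter fun i => c i x = 0 with hB
  have hBA : B ⊆ A := Finset.filter_subset _ _
  have hxB : x ∈ Zf (Hk c) B := mem_Zf.2 fun i hi => (Finset.mem_filter.1 hi).2
  have hBs : B ⊂ A := by
    refine lt_of_le_of_ne hBA fun h => h0 x hx ?_
    rw [← h]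
    exact hxB
  have hBc : Closed (Hk c) B := by
    intro i hi
    exact Finset.mem_filter.2 ⟨hA i ((Zf_anti hBA).trans hi), hi hxB⟩
  -- the radius
  have hev : ∀ᶠ y in 𝓝 x, ∀ i ∈ A \ B, ‖c i y‖ = ‖c i x‖ := by
    rw [Filter.eventually_all_finset]
    intro i hi
    have hi' : c i x ≠ 0 := fun h => (Finset.mem_sdiff.1 hi).2
      (Finset.mem_filter.2 ⟨(Finset.mem_sdiff.1 hi).1, h⟩)
    have h1 : Filter.Tendsto (fun y => ‖c i y - c i x‖) (𝓝 x) (𝓝 ‖c i x - c i x‖) :=
      (((c_cont c i).sub continuous_const).norm).tendsto x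
    rw [sub_self, norm_zero] at h1
    filter_upwards [h1.eventually_lt_const (norm_pos_iff.2 hi')] with y hy
    exact norm_const hy
  obtain ⟨r, hr, hrx⟩ := (nhds_basis_closedBall.eventually_iff).1 hev
  refine ⟨r, hr, fun E hE hEr hEU => ?_⟩
  -- the constant
  have hz : ∀ i, ∃ z : ℚ_[p], ‖z‖ = ‖c i x‖ ∧ (c i x ≠ 0 → z ≠ 0) := by
    intro i
    by_cases h : c i x = 0
    · exact ⟨0, by rw [h, norm_zero, norm_zero], fun h' => absurd h h'⟩
    · have hne : Nonempty (κ i) := by
        by_contra hn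
        rw [not_nonempty_iff] at hn
        exact h (Subsingleton.elim _ _)
      obtain ⟨j, hj⟩ := norm_attained (c i x)
      refine ⟨c i x j, hj.symm, fun _ h' => h ?_⟩
      rw [h', norm_zero] at hj
      exact norm_eq_zero.1 hj
  choose z hz1 hz2 using hz
  set Z : ℚ_[p] := ∏ i ∈ A \ B, z i ^ e i with hZ
  have hZ0 : Z ≠ 0 := by
    refine Finset.prod_ne_zero_iff.2 fun i hi => pow_ne_zero _ (hz2 i fun h => ?_)
    exact (Finset.mem_sdiff.1 hi).2 (Finset.mem_filter.2 ⟨(Finset.mem_sdiff.1 hi).1, h⟩)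
  have hw : ∀ y ∈ E, ww c e A y = ‖Z‖ * ww c e B y := by
    intro y hy
    rw [ww_split c e hBA, mul_comm]
    congr 1
    rw [hZ, norm_prod]
    unfold ww
    refine Finset.prod_congr rfl fun i hi => ?_
    rw [norm_pow, hz1, hrx (hEr hy) i hi]
  refine ((FR_norm (IH B hBs hBc E hE) Z hZ0).mono fun T _ => ?_).congr fun s hs => ?_
  · exact_mod_cast mA_le_mB T hBs
  · exact (FE_mul _ hE _ (norm_nonneg _) hw (ww_nonneg c e B) s).symm

/-- the geometric factor -/
theorem FR_geo (n N : ℕ) (hn : n ≠ 0) (F G : ℝ → ℂ) (m m' : ℂ → ℕ∞) (h : FR p m G)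
    (hFG : ∀ s, 0 ≤ s → F s = ((p : ℂ)⁻¹) ^ n * ((tr' p s : ℝ) : ℂ) ^ N * F s + G s)
    (hm : ∀ T : ℂ, 1 < ‖T‖ → m T + (if T ^ N = (p : ℂ) ^ n then 1 else 0) ≤ m' T) :
    FR p m' F := by
  have hpR : (1 : ℝ) < p := by exact_mod_cast (Fact.out : p.Prime).one_lt
  have hpC : (p : ℂ) ≠ 0 := by exact_mod_cast (Fact.out : p.Prime).ne_zero
  have hp1 : (p : ℂ) ^ n ≠ 1 := by
    intro h
    have h1 := congrArg norm h
    rw [norm_pow, Complex.norm_natCast, norm_one] at h1
    exact (one_lt_pow₀ hpR hn).ne' h1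
  have hne : ∀ s : ℝ, 0 ≤ s → (p : ℂ) ^ n - ((tr' p s : ℝ) : ℂ) ^ N ≠ 0 := by
    intro s hs h0
    have h1 : (((p : ℝ) ^ n - (tr' p s) ^ N : ℝ) : ℂ) = 0 := by push_cast; exact h0
    have h2 : (p : ℝ) ^ n - (tr' p s) ^ N = 0 := by exact_mod_cast h1
    have h3 : (tr' p s) ^ N ≤ 1 := pow_le_one₀ (tr'_pos p s).le (tr'_le p s hs)
    have h4 : 1 < (p : ℝ) ^ n := one_lt_pow₀ hpR hn
    linarith
  set D : Polynomial ℂ := Polynomial.X ^ N - Polynomial.C ((p : ℂ) ^ n) with hD
  have hD0 : D ≠ 0 := by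
    intro h0
    have h1 := congrArg (fun P : Polynomial ℂ => P.eval 1) h0
    simp only [hD, Polynomial.eval_sub, Polynomial.eval_pow, Polynomial.eval_X, one_pow,
      Polynomial.eval_C, Polynomial.eval_zero] at h1
    exact hp1 (sub_eq_zero.1 h1).symm
  have hH : FR p (fun T => if T ^ N = (p : ℂ) ^ n then 1 else 0)
      (fun s => (p : ℂ) ^ n / ((p : ℂ) ^ n - ((tr' p s : ℝ) : ℂ) ^ N)) := by
    refine FR_of_rat D (Polynomial.C (-(p : ℂ) ^ n)) hD0 (fun s hs => ?_) fun T hT => ?_
    · simp only [hD, Polynomial.eval_sub, Polynomial.eval_C, Polynomial.eval_X,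
        Polynomial.eval_pow]
      have h1 := hne s hs
      field_simp
      ring
    · by_cases hTp : T ^ N = (p : ℂ) ^ n
      · have hN : N ≠ 0 := by
          rintro rfl
          rw [pow_zero] at hTp
          exact hp1 hTp.symm
        have hT1 : ¬ ‖T‖ ≤ 1 := by
          intro h
          have h1 : ‖T‖ ^ N ≤ 1 := pow_le_one₀ (norm_nonneg _) h
          rw [← norm_pow, hTp, norm_pow, Complex.norm_natCast] at h1
          have := one_lt_pow₀ hpR hn
          linarith
        rw [Pool.Agent.Y230.PS.tr, if_neg hT1, if_pos hTp]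
        have h2 : ¬ 1 < D.rootMultiplicity T := by
          rw [Polynomial.one_lt_rootMultiplicity_iff_isRoot hD0]
          rintro ⟨-, h2⟩
          rw [Polynomial.IsRoot.def, hD] at h2
          simp only [Polynomial.derivative_sub, Polynomial.derivative_X_pow,
            Polynomial.derivative_C, sub_zero, Polynomial.eval_mul, Polynomial.eval_C,
            Polynomial.eval_pow, Polynomial.eval_X] at h2
          rcases mul_eq_zero.1 h2 with h3 | h3
          · exact hN (by exact_mod_cast h3)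
          · exact pow_ne_zero _ hT h3
        exact_mod_cast not_lt.1 h2
      · have h1 : D.rootMultiplicity T = 0 := by
          apply Polynomial.rootMultiplicity_eq_zero
          rw [Polynomial.IsRoot, hD]
          simp only [Polynomial.eval_sub, Polynomial.eval_C, Polynomial.eval_X,
            Polynomial.eval_pow]
          exact fun h => hTp (sub_eq_zero.1 h)
        rw [h1]
        simp
  refine (FR.mul h hH hm).congr fun s hs => ?_
  have h1 := hFG s hs
  have h2 := hne s hs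
  have h3 : (p : ℂ) ^ n ≠ 0 := pow_ne_zero _ hpC
  rw [inv_pow] at h1
  rw [← mul_div_assoc, div_eq_iff h2]
  have h4 : (p : ℂ) ^ n * F s = ((tr' p s : ℝ) : ℂ) ^ N * F s + (p : ℂ) ^ n * G s := by
    calc (p : ℂ) ^ n * F s = (p : ℂ) ^ n * (((p : ℂ) ^ n)⁻¹ * ((tr' p s : ℝ) : ℂ) ^ N * F s + G s) :=
          by rw [← h1]
      _ = ((tr' p s : ℝ) : ℂ) ^ N * F s + (p : ℂ) ^ n * G s := by
          rw [mul_add, ← mul_assoc, ← mul_assoc, mul_inv_cancel₀ h3, one_mul]
  linear_combination -h4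

section lin

variable {W1 W2 : Submodule ℚ_[p] (σ → ℚ_[p])}

/-- coordinates of a decomposition -/
noncomputable def gg (h : IsCompl W1 W2) :
    ((Fin (Module.finrank ℚ_[p] W1) → ℚ_[p]) × (Fin (Module.finrank ℚ_[p] W2) → ℚ_[p]))
      ≃ₗ[ℚ_[p]] (σ → ℚ_[p]) :=
  (LinearEquiv.prodCongr (Module.finBasis ℚ_[p] W1).equivFun.symm
    (Module.finBasis ℚ_[p] W2).equivFun.symm).trans (Submodule.prodEquivOfIsCompl W1 W2 h)

theorem gg_apply (h : IsCompl W1 W2) (a : Fin (Module.finrank ℚ_[p] W1) → ℚ_[p])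
    (b : Fin (Module.finrank ℚ_[p] W2) → ℚ_[p]) :
    gg h (a, b) = ((Module.finBasis ℚ_[p] W1).equivFun.symm a : σ → ℚ_[p]) +
      ((Module.finBasis ℚ_[p] W2).equivFun.symm b : σ → ℚ_[p]) := by
  unfold gg
  rw [LinearEquiv.trans_apply, Submodule.coe_prodEquivOfIsCompl']
  rfl

theorem gg_one (h : IsCompl W1 W2) (a : Fin (Module.finrank ℚ_[p] W1) → ℚ_[p]) :
    gg h (a, 0) ∈ W1 := by
  rw [gg_apply, map_zero, ZeroMemClass.coe_zero, add_zero]
  exact Submodule.coe_mem _

theorem gg_two (h : IsCompl W1 W2) (b : Fin (Module.finrank ℚ_[p] W2) → ℚ_[p]) :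
    gg h (0, b) ∈ W2 := by
  rw [gg_apply, map_zero, ZeroMemClass.coe_zero, zero_add]
  exact Submodule.coe_mem _

theorem gg_add (h : IsCompl W1 W2) (a : Fin (Module.finrank ℚ_[p] W1) → ℚ_[p])
    (b : Fin (Module.finrank ℚ_[p] W2) → ℚ_[p]) :
    gg h (a, b) = gg h (a, 0) + gg h (0, b) := by
  rw [← map_add]
  simp

theorem gg_mem (h : IsCompl W1 W2) (a : Fin (Module.finrank ℚ_[p] W1) → ℚ_[p])
    (b : Fin (Module.finrank ℚ_[p] W2) → ℚ_[p]) (h2 : gg h (a, b) ∈ W2) : a = 0 := by
  rw [gg_add] at h2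
  have h3 : gg h (a, 0) ∈ W2 := (Submodule.add_mem_iff_left _ (gg_two h b)).1 h2
  have h4 : gg h (a, 0) = 0 := by
    have := h.disjoint.le_bot ⟨gg_one h a, h3⟩
    simpa using this
  have h5 := (gg h).map_eq_zero_iff.1 h4
  exact (Prod.mk.inj h5).1

end lin

section red

variable {α β : Type} [Fintype α] [Fintype β]
  (g : ((α → ℚ_[p]) × (β → ℚ_[p])) ≃ₗ[ℚ_[p]] (σ → ℚ_[p]))

theorem co_pre {U : Set (σ → ℚ_[p])} (hU : CO U) : CO (g ⁻¹' U) :=
  ⟨g.toContinuousLinearEquiv.toHomeomorph.isCompact_preimage.2 hU.1,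
    hU.2.preimage g.toContinuousLinearEquiv.continuous⟩

theorem co_img {E : Set ((α → ℚ_[p]) × (β → ℚ_[p]))} (hE : CO E) : CO (g '' E) :=
  ⟨hE.1.image g.toContinuousLinearEquiv.continuous,
    g.toContinuousLinearEquiv.toHomeomorph.isOpenMap _ hE.2⟩

theorem FR_cmul {m : ℂ → ℕ∞} {F : ℝ → ℂ} (h : FR p m F) (C : ℂ) :
    FR p m (fun s => C * F s) := FR.mul0 (fun _ _ => Reg.const C) h

/-- from the coordinates to the space -/
theorem FR_to {m : ℂ → ℕ∞} (ρ : (σ → ℚ_[p]) → ℝ) (hρ : Continuous ρ) {U : Set (σ → ℚ_[p])}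
    (hU : CO U) (h : FR p m (FE ((NU p α).prod (NU p β)) (fun z => ρ (g z)) (g ⁻¹' U))) :
    FR p m (FE (NU p σ) ρ U) := by
  obtain ⟨C, hC, hF⟩ := FE_lin g
  refine (FR_cmul h ((C : ℂ)⁻¹)).congr fun s hs => ?_
  have hC' : (C : ℂ) ≠ 0 := by exact_mod_cast hC.ne'
  rw [hF ρ hρ U hU s hs, ← mul_assoc, inv_mul_cancel₀ hC', one_mul]

/-- from the space to the coordinates -/
theorem FR_from {m : ℂ → ℕ∞} (ρ : (σ → ℚ_[p]) → ℝ) (hρ : Continuous ρ)
    {E : Set ((α → ℚ_[p]) × (β → ℚ_[p]))} (hE : CO E) (h : FR p m (FE (NU p σ) ρ (g '' E))) :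
    FR p m (FE ((NU p α).prod (NU p β)) (fun z => ρ (g z)) E) := by
  obtain ⟨C, hC, hF⟩ := FE_lin g
  refine (FR_cmul h (C : ℂ)).congr fun s hs => ?_
  rw [← hF ρ hρ _ (co_img g hE) s hs, g.injective.preimage_image]

/-- it is enough to consider balls in the coordinates -/
theorem FR_balls {m : ℂ → ℕ∞} (ρ : (σ → ℚ_[p]) → ℝ) (hρ : Continuous ρ)
    (h : ∀ (a : α → ℚ_[p]) (b : β → ℚ_[p]) (r : ℝ), 0 < r →
      FR p m (FE ((NU p α).prod (NU p β)) (fun z => ρ (g z)) (closedBall a r ×ˢ closedBall b r)))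
    {U : Set (σ → ℚ_[p])} (hU : CO U) : FR p m (FE (NU p σ) ρ U) := by
  refine FR_to g ρ hρ hU ?_
  have hc : Continuous fun z => ρ (g z) := hρ.comp g.toContinuousLinearEquiv.continuous
  refine co_balls (fun E => FR p m (FE ((NU p α).prod (NU p β)) (fun z => ρ (g z)) E))
    (FR_empty _ _) (fun E F hE hF hd h1 h2 => FR_union _ hc hE hF hd h1 h2) _ (co_pre g hU)
    fun x _ r hr _ => ?_
  have h1 := h x.1 x.2 r hr
  rwa [closedBall_prod_same] at h1

end red

theorem main (hc : ∀ i, c i ≠ 0) (A : Finset S) : Closed (Hk c) A →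
    ∀ U : Set (σ → ℚ_[p]), CO U →
      FR p (fun T => (mA p (Hk c) e A T : ℕ∞)) (FE (NU p σ) (ww c e A) U) := by
  classical
  have hH : ∀ i, Hk c i ≠ ⊤ := fun i h => hc i (LinearMap.ker_eq_top.1 h)
  have hpR : (0 : ℝ) < p := by exact_mod_cast (Fact.out : p.Prime).pos
  have hp1 : (1 : ℝ) < p := by exact_mod_cast (Fact.out : p.Prime).one_lt
  induction A using Finset.strongInduction with
  | H A IH =>
  intro hA U hU
  by_cases hemp : A = ∅
  · subst hemp
    refine (FR_const (p := p) _ (((NU p σ) U).toReal : ℂ)).congr fun s hs => ?_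
    rw [← FE_one (NU p σ) U s]
    congr 1
  by_cases hconn : Conn (Hk c) A
  · -- the connected case
    obtain ⟨W1, hW⟩ := Submodule.exists_isCompl (Zf (Hk c) A)
    have hcomp : IsCompl W1 (Zf (Hk c) A) := hW.symm
    set n := Module.finrank ℚ_[p] W1 with hn
    set g := gg hcomp with hg
    have hfr : n = Module.finrank ℚ_[p] (σ → ℚ_[p]) - Module.finrank ℚ_[p] (Zf (Hk c) A) := by
      have := Submodule.finrank_add_eq_of_isCompl hcomp
      omega
    have hn0 : n ≠ 0 := by
      intro h0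
      obtain ⟨i, hi⟩ := hconn.1
      have h1 := Submodule.finrank_add_eq_of_isCompl hcomp
      have h2 : Zf (Hk c) A = ⊤ := Submodule.eq_top_of_finrank_eq (by omega)
      apply hH i
      rw [eq_top_iff, ← h2]
      exact Zf_le hi
    set N := ∑ i ∈ A, e i with hN
    set w1 : (Fin n → ℚ_[p]) → ℝ := fun a => ww c e A (g (a, 0)) with hw1
    have hgc : Continuous g := g.toContinuousLinearEquiv.continuous
    have hw1c : Continuous w1 := (ww_cont c e A).comp (hgc.comp (by fun_prop))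
    have hw1n : ∀ a, 0 ≤ w1 a := fun a => ww_nonneg c e A _
    have hci : ∀ i ∈ A, ∀ a b, c i (g (a, b)) = c i (g (a, 0)) := by
      intro i hi a b
      rw [hg, gg_add, map_add]
      have h1 : c i (gg hcomp (0, b)) = 0 := Zf_le hi (gg_two hcomp b)
      rw [h1, add_zero]
    have hww : ∀ z, ww c e A (g z) = w1 z.1 * (fun _ => (1 : ℝ)) z.2 := by
      rintro ⟨a, b⟩
      rw [mul_one]
      exact Finset.prod_congr rfl fun i hi => by rw [hci i hi]
    have hscale : ∀ a, w1 ((p : ℚ_[p]) • a) = ((p : ℝ)⁻¹) ^ N * w1 a := by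
      intro a
      change ww c e A (g ((p : ℚ_[p]) • a, 0)) = _
      have h1 : ((p : ℚ_[p]) • a, (0 : Fin (Module.finrank ℚ_[p] (Zf (Hk c) A)) → ℚ_[p])) =
          (p : ℚ_[p]) • (a, 0) := by
        rw [Prod.smul_mk, smul_zero]
      rw [h1, map_smul, hN, ← Finset.prod_pow_eq_pow_sum]
      change _ = _ * ww c e A (g (a, 0))
      unfold ww
      rw [← Finset.prod_mul_distrib]
      refine Finset.prod_congr rfl fun i _ => ?_
      rw [map_smul, norm_smul, Padic.norm_p, mul_pow]
    have hE : ∀ (E : Set (Fin n → ℚ_[p]))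
        (F : Set (Fin (Module.finrank ℚ_[p] (Zf (Hk c) A)) → ℚ_[p])) (s : ℝ),
        FE ((NU p _).prod (NU p _)) (fun z => ww c e A (g z)) (E ×ˢ F) s =
          FE (NU p _) w1 E s * (((NU p _) F).toReal : ℂ) := by
      intro E F s
      rw [← FE_one (NU p _) F s, ← FE_prod (NU p _) (NU p _) w1 (fun _ => 1) hw1c.measurable
        measurable_const hw1n (fun _ => zero_le_one) E F s]
      congr 1
      funext z
      exact hww z
    refine FR_balls g (ww c e A) (ww_cont c e A) (fun a b r hr => ?_) hU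
    by_cases h0 : (0 : Fin n → ℚ_[p]) ∈ closedBall a r
    · have hball : closedBall a r = closedBall 0 r := IsUltrametricDist.closedBall_eq_of_mem h0
      rw [hball]
      set E0 : Set (Fin n → ℚ_[p]) := closedBall 0 ((p : ℝ)⁻¹ * r) with hE0
      have hr' : 0 < (p : ℝ)⁻¹ * r := by positivity
      have hsub : E0 ⊆ closedBall 0 r := by
        refine closedBall_subset_closedBall ?_
        exact mul_le_of_le_one_left hr.le (inv_le_one_of_one_le₀ hp1.le)
      have hE0c : IsClopen E0 := IsUltrametricDist.isClopen_closedBall _ hr'.ne'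
      have hG : FR p (fun T => (mB p (Hk c) e A T : ℕ∞))
          (FE ((NU p _).prod (NU p _)) (fun z => ww c e A (g z))
            ((closedBall 0 r \ E0) ×ˢ closedBall b r)) := by
        have hco : CO ((closedBall (0 : Fin n → ℚ_[p]) r \ E0) ×ˢ closedBall b r) :=
          ⟨((CO.ball _ hr).diff_clopen hE0c).1.prod (CO.ball b hr).1,
            ((CO.ball _ hr).diff_clopen hE0c).2.prod (CO.ball b hr).2⟩
        refine FR_from g (ww c e A) (ww_cont c e A) hco ?_
        refine step1 c e A hA (fun B hB hBc => IH B hB hBc) _ (co_img g hco) ?_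
        rintro x ⟨⟨a', b'⟩, hab, rfl⟩ hx
        have h1 := gg_mem hcomp a' b' hx
        apply hab.1.2
        change a' ∈ E0
        rw [h1]
        exact mem_closedBall_self hr'.le
      refine FR_geo n N hn0 _ _ _ _ hG (fun s hs => ?_) fun T hT => ?_
      · rw [hE, hE]
        have h1 := FE_scale (p := p) w1 hw1c hw1n N hscale r hr s hs
        rw [Fintype.card_fin] at h1
        have h2 : closedBall (0 : Fin n → ℚ_[p]) r = E0 ∪ (closedBall 0 r \ E0) :=
          (Set.union_sdiff_cancel hsub).symm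
        have h3 : FE (NU p _) w1 (closedBall 0 r) s = FE (NU p _) w1 E0 s +
            FE (NU p _) w1 (closedBall 0 r \ E0) s := by
          conv_lhs => rw [h2]
          exact FE_union _ hw1c (CO.ball _ hr') ((CO.ball _ hr).diff_clopen hE0c)
            Set.disjoint_sdiff_right hs
        rw [h1] at h3
        conv_lhs => rw [h3]
        ring
      · have h1 := mB_add (p := p) (e := e) T hA hconn
        unfold Res at h1
        rw [← hfr, ← hN] at h1
        exact_mod_cast h1
    · have hco : CO ((closedBall a r) ×ˢ closedBall b r) :=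
        ⟨(CO.ball a hr).1.prod (CO.ball b hr).1, (CO.ball a hr).2.prod (CO.ball b hr).2⟩
      refine FR.mono (FR_from g (ww c e A) (ww_cont c e A) hco (step1 c e A hA
        (fun B hB hBc => IH B hB hBc) _ (co_img g hco) ?_)) fun T _ => ?_
      · rintro x ⟨⟨a', b'⟩, hab, rfl⟩ hx
        have h1 := gg_mem hcomp a' b' hx
        apply h0
        rw [← h1]
        exact hab.1
      · exact_mod_cast mB_le T
  · -- the disconnected case
    have h1 : ∃ B ⊆ A, B.Nonempty ∧ (A \ B).Nonempty ∧ Zf (Hk c) B ⊔ Zf (Hk c) (A \ B) = ⊤ := by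
      unfold Conn at hconn
      push Not at hconn
      exact hconn (Finset.nonempty_iff_ne_empty.2 hemp)
    obtain ⟨B, hBA, hB, hAB, htop⟩ := h1
    have hBc : Closed (Hk c) B := closed_part hH hA hBA htop
    have hABc : Closed (Hk c) (A \ B) := by
      refine closed_part hH hA Finset.sdiff_subset ?_
      rw [Finset.sdiff_sdiff_eq_self hBA, sup_comm]
      exact htop
    have hBs : B ⊂ A := by
      refine lt_of_le_of_ne hBA fun h => ?_
      rw [h, sdiff_self] at hAB
      exact Finset.not_nonempty_empty hAB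
    have hABs : A \ B ⊂ A := Finset.sdiff_ssubset hBA hB
    obtain ⟨W2, hW2, hcomp0⟩ := (codisjoint_iff.2 htop).exists_isCompl
    have hcomp : IsCompl (Zf (Hk c) (A \ B)) W2 := hcomp0.symm
    set g := gg hcomp with hg
    have hgc : Continuous g := g.toContinuousLinearEquiv.continuous
    set w1 : (Fin (Module.finrank ℚ_[p] (Zf (Hk c) (A \ B))) → ℚ_[p]) → ℝ :=
      fun a => ww c e B (g (a, 0)) with hw1
    set w2 : (Fin (Module.finrank ℚ_[p] W2) → ℚ_[p]) → ℝ :=
      fun b => ww c e (A \ B) (g (0, b)) with hw2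
    have hw1c : Continuous w1 := (ww_cont c e B).comp (hgc.comp (by fun_prop))
    have hw2c : Continuous w2 := (ww_cont c e (A \ B)).comp (hgc.comp (by fun_prop))
    have hw1n : ∀ a, 0 ≤ w1 a := fun a => ww_nonneg c e B _
    have hw2n : ∀ a, 0 ≤ w2 a := fun a => ww_nonneg c e (A \ B) _
    have hc1 : ∀ i ∈ B, ∀ a b, c i (g (a, b)) = c i (g (a, 0)) := by
      intro i hi a b
      rw [hg, gg_add, map_add]
      have h1 : c i (gg hcomp (0, b)) = 0 := (hW2.trans (Zf_le hi)) (gg_two hcomp b)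
      rw [h1, add_zero]
    have hc2 : ∀ i ∈ A \ B, ∀ a b, c i (g (a, b)) = c i (g (0, b)) := by
      intro i hi a b
      rw [hg, gg_add, map_add]
      have h1 : c i (gg hcomp (a, 0)) = 0 := (Zf_le hi) (gg_one hcomp a)
      rw [h1, zero_add]
    have hwB : ∀ z, ww c e B (g z) = w1 z.1 * (fun _ => (1 : ℝ)) z.2 := by
      rintro ⟨a, b⟩
      rw [mul_one]
      exact Finset.prod_congr rfl fun i hi => by rw [hc1 i hi]
    have hwC : ∀ z, ww c e (A \ B) (g z) = (fun _ => (1 : ℝ)) z.1 * w2 z.2 := by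
      rintro ⟨a, b⟩
      rw [one_mul]
      exact Finset.prod_congr rfl fun i hi => by rw [hc2 i hi]
    have hwA : ∀ z, ww c e A (g z) = w1 z.1 * w2 z.2 := by
      intro z
      rw [ww_split c e hBA, hwB, hwC, mul_one, one_mul]
    refine FR_balls g (ww c e A) (ww_cont c e A) (fun a b r hr => ?_) hU
    have hco : CO ((closedBall a r) ×ˢ closedBall b r) :=
      ⟨(CO.ball a hr).1.prod (CO.ball b hr).1, (CO.ball a hr).2.prod (CO.ball b hr).2⟩
    have k1 := FR_from g (ww c e B) (ww_cont c e B) hco (IH B hBs hBc _ (co_img g hco))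
    have k2 := FR_from g (ww c e (A \ B)) (ww_cont c e (A \ B)) hco
      (IH (A \ B) hABs hABc _ (co_img g hco))
    have v1 : 0 < ((NU p _) (closedBall a r)).toReal := ENNReal.toReal_pos
      ((CO.ball a hr).2.measure_pos _ ⟨a, mem_closedBall_self hr.le⟩).ne'
      (CO.ball a hr).1.measure_lt_top.ne
    have v2 : 0 < ((NU p _) (closedBall b r)).toReal := ENNReal.toReal_pos
      ((CO.ball b hr).2.measure_pos _ ⟨b, mem_closedBall_self hr.le⟩).ne'
      (CO.ball b hr).1.measure_lt_top.ne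
    have v1' : (((NU p _) (closedBall a r)).toReal : ℂ) ≠ 0 := by exact_mod_cast v1.ne'
    have v2' : (((NU p _) (closedBall b r)).toReal : ℂ) ≠ 0 := by exact_mod_cast v2.ne'
    refine ((FR.mul k1 k2 (m3 := fun T => (mA p (Hk c) e A T : ℕ∞)) fun T _ => by
      exact_mod_cast mA_split T hBA htop) |> fun h => FR_cmul h
        ((((NU p _) (closedBall b r)).toReal : ℂ)⁻¹ *
          ((((NU p _) (closedBall a r)).toReal : ℂ))⁻¹)).congr fun s hs => ?_
    have q1 : FE ((NU p _).prod (NU p _)) (fun z => ww c e B (g z))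
        (closedBall a r ×ˢ closedBall b r) s = FE (NU p _) w1 (closedBall a r) s *
          (((NU p _) (closedBall b r)).toReal : ℂ) := by
      rw [← FE_one (NU p _) (closedBall b r) s, ← FE_prod (NU p _) (NU p _) w1 (fun _ => 1)
        hw1c.measurable measurable_const hw1n (fun _ => zero_le_one)]
      congr 1
      funext z
      exact hwB z
    have q2 : FE ((NU p _).prod (NU p _)) (fun z => ww c e (A \ B) (g z))
        (closedBall a r ×ˢ closedBall b r) s = (((NU p _) (closedBall a r)).toReal : ℂ) *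
          FE (NU p _) w2 (closedBall b r) s := by
      rw [← FE_one (NU p _) (closedBall a r) s, ← FE_prod (NU p _) (NU p _) (fun _ => 1) w2
        measurable_const hw2c.measurable (fun _ => zero_le_one) hw2n]
      congr 1
      funext z
      exact hwC z
    have q3 : FE ((NU p _).prod (NU p _)) (fun z => ww c e A (g z))
        (closedBall a r ×ˢ closedBall b r) s = FE (NU p _) w1 (closedBall a r) s *
          FE (NU p _) w2 (closedBall b r) s := by
      rw [← FE_prod (NU p _) (NU p _) w1 w2 hw1c.measurable hw2c.measurable hw1n hw2n]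
      congr 1
      funext z
      exact hwA z
    rw [q1, q2, q3]
    field_simp

end Pool.Agent.R852.SP
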