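import Pool.Agent.R852.SP.Top
import Pool.Agent.R852.PP.PAdic

set_option autoImplicit false
set_option linter.unusedSectionVars false
set_option linter.unusedVariables false

/-! # Integrals over compact open sets of `ℚ_p ^ n` -/

namespace Pool.Agent.R852.SP

open MeasureTheory Metric Pool.Agent.W427.SMC Pool.Agent.Y230.PT Pool.Agent.Y230.PS
open scoped ENNReal NNReal

attribute [local instance] msK bsK msZ bsZ

variable {p : ℕ} [Fact p.Prime]

/-- the integral of `ρ ^ s` over `E` -/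
noncomputable def FE {X : Type} [MeasurableSpace X] (μ : Measure X) (ρ : X → ℝ) (E : Set X)
    (s : ℝ) : ℂ :=
  ((∫⁻ x in E, ENNReal.ofReal (ρ x ^ s) ∂μ).toReal : ℂ)

section gen

variable {X : Type} [MetricSpace X] [IsUltrametricDist X] [MeasurableSpace X] [BorelSpace X]
  (μ : Measure X) [IsFiniteMeasureOnCompacts μ] (ρ : X → ℝ)

theorem rs_cont {ρ : X → ℝ} (hρ : Continuous ρ) {s : ℝ} (hs : 0 ≤ s) :
    Continuous fun x => (ρ x ^ s).toNNReal :=
  continuous_real_toNNReal.comp (hρ.rpow_const fun x => Or.inr hs)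

theorem rs_meas {ρ : X → ℝ} (hρ : Continuous ρ) {s : ℝ} (hs : 0 ≤ s) :
    Measurable fun x => ENNReal.ofReal (ρ x ^ s) :=
  ENNReal.measurable_ofReal.comp (hρ.rpow_const fun x => Or.inr hs).measurable

theorem FE_fin {ρ : X → ℝ} (hρ : Continuous ρ) {E : Set X} (hE : CO E) {s : ℝ} (hs : 0 ≤ s) :
    ∫⁻ x in E, ENNReal.ofReal (ρ x ^ s) ∂μ ≠ ⊤ :=
  (setLIntegral_lt_top_of_isCompact hE.1.measure_lt_top.ne hE.1 (rs_cont hρ hs)).ne

theorem FE_empty (s : ℝ) : FE μ ρ ∅ s = 0 := by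
  unfold FE
  simp

theorem FE_union {ρ : X → ℝ} (hρ : Continuous ρ) {E F : Set X} (hE : CO E) (hF : CO F)
    (hd : Disjoint E F) {s : ℝ} (hs : 0 ≤ s) : FE μ ρ (E ∪ F) s = FE μ ρ E s + FE μ ρ F s := by
  unfold FE
  rw [lintegral_union hF.2.measurableSet hd, ENNReal.toReal_add (FE_fin μ hρ hE hs)
    (FE_fin μ hρ hF hs), Complex.ofReal_add]

theorem FE_mul {ρ ρ' : X → ℝ} {E : Set X} (hE : CO E) (a : ℝ) (ha : 0 ≤ a)
    (h : ∀ x ∈ E, ρ x = a * ρ' x) (h0 : ∀ x, 0 ≤ ρ' x) (s : ℝ) :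
    FE μ ρ E s = ((a ^ s : ℝ) : ℂ) * FE μ ρ' E s := by
  unfold FE
  rw [← Complex.ofReal_mul]
  congr 1
  have h1 : ∫⁻ x in E, ENNReal.ofReal (ρ x ^ s) ∂μ =
      ∫⁻ x in E, ENNReal.ofReal (a ^ s) * ENNReal.ofReal (ρ' x ^ s) ∂μ := by
    refine setLIntegral_congr_fun hE.2.measurableSet fun x hx => ?_
    rw [h x hx, Real.mul_rpow ha (h0 x), ENNReal.ofReal_mul (Real.rpow_nonneg ha _)]
  rw [h1, lintegral_const_mul' _ _ ENNReal.ofReal_ne_top, ENNReal.toReal_mul,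
    ENNReal.toReal_ofReal (Real.rpow_nonneg ha _)]

/-- for the size functions with property `FR`, finite disjoint unions -/
theorem FR_union {m : ℂ → ℕ∞} {ρ : X → ℝ} (hρ : Continuous ρ) {E F : Set X} (hE : CO E)
    (hF : CO F) (hd : Disjoint E F) (h1 : FR p m (FE μ ρ E)) (h2 : FR p m (FE μ ρ F)) :
    FR p m (FE μ ρ (E ∪ F)) :=
  (h1.add h2).congr fun s hs => (FE_union μ hρ hE hF hd hs).symm

theorem FR_empty {m : ℂ → ℕ∞} : FR p m (FE μ ρ ∅) :=
  (FR_const (p := p) m 0).congr fun s hs => (FE_empty μ ρ s).symm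

end gen

theorem FE_prod {X Y : Type} [MeasurableSpace X] [MeasurableSpace Y] (μ : Measure X)
    (ν : Measure Y) [SigmaFinite μ] [SigmaFinite ν] (ρ : X → ℝ) (τ : Y → ℝ)
    (hρ : Measurable ρ) (hτ : Measurable τ) (h0 : ∀ x, 0 ≤ ρ x) (h0' : ∀ x, 0 ≤ τ x)
    (E : Set X) (F : Set Y) (s : ℝ) :
    FE (μ.prod ν) (fun z => ρ z.1 * τ z.2) (E ×ˢ F) s = FE μ ρ E s * FE ν τ F s := by
  unfold FE
  rw [← Complex.ofReal_mul, ← ENNReal.toReal_mul]
  congr 2
  have h1 : Measurable fun x => ENNReal.ofReal (ρ x ^ s) :=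
    ENNReal.measurable_ofReal.comp (hρ.pow_const s)
  have h2 : Measurable fun x => ENNReal.ofReal (τ x ^ s) :=
    ENNReal.measurable_ofReal.comp (hτ.pow_const s)
  rw [← Measure.prod_restrict, ← lintegral_prod_mul h1.aemeasurable h2.aemeasurable]
  refine lintegral_congr fun z => ?_
  rw [Real.mul_rpow (h0 _) (h0' _), ENNReal.ofReal_mul (Real.rpow_nonneg (h0 _) _)]

theorem FE_one {X : Type} [MeasurableSpace X] (μ : Measure X) (E : Set X) (s : ℝ) :
    FE μ (fun _ => 1) E s = (μ E).toReal := by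
  unfold FE
  simp

/-- multiplication by a power of `p ^ (-s)` -/
theorem FR_norm {m : ℂ → ℕ∞} {F : ℝ → ℂ} (h : FR p m F) (z : ℚ_[p]) (hz : z ≠ 0) :
    FR p m (fun s => ((‖z‖ ^ s : ℝ) : ℂ) * F s) := by
  have hp : (0 : ℝ) < p := by exact_mod_cast (Fact.out : p.Prime).pos
  have hn := Padic.norm_eq_zpow_neg_valuation hz
  rcases le_total 0 z.valuation with hv | hv
  · obtain ⟨k, hk⟩ := Int.eq_ofNat_of_zero_le hv
    have h1 : FR p m (fun s => (((tr' p s : ℝ) : ℂ)) ^ k * F s) :=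
      FR.mul0 (fun T0 hT0 => Reg.t.pow k) h
    refine h1.congr fun s hs => ?_
    congr 1
    rw [← Complex.ofReal_pow]
    congr 1
    rw [hn, hk, zpow_neg, zpow_natCast, Real.inv_rpow (pow_nonneg hp.le _), tr',
      Real.rpow_neg hp.le, inv_pow, ← Real.rpow_natCast, ← Real.rpow_natCast,
      ← Real.rpow_mul hp.le, ← Real.rpow_mul hp.le, mul_comm]
  · obtain ⟨k, hk⟩ := Int.eq_ofNat_of_zero_le (neg_nonneg.2 hv)
    have h1 : FR p m (fun s => (((tr' p s : ℝ) : ℂ)⁻¹) ^ k * F s) :=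
      FR.mul0 (fun T0 hT0 => (Reg.tinv hT0).pow k) h
    refine h1.congr fun s hs => ?_
    congr 1
    rw [← Complex.ofReal_inv, ← Complex.ofReal_pow]
    congr 1
    rw [hn, hk, zpow_natCast, tr', Real.rpow_neg hp.le, inv_inv,
      ← Real.rpow_natCast, ← Real.rpow_natCast, ← Real.rpow_mul hp.le, ← Real.rpow_mul hp.le,
      mul_comm]

/-- the Haar measure of `ℚ_p ^ n` -/
noncomputable def NU (p : ℕ) [Fact p.Prime] (α : Type) [Fintype α] : Measure (α → ℚ_[p]) :=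
  Measure.pi fun _ => nu p

variable {α β γ : Type} [Fintype α] [Fintype β] [Fintype γ]

instance : (NU p α).IsAddHaarMeasure := by unfold NU; infer_instance

instance : SigmaFinite (NU p α) := by unfold NU; infer_instance

instance : ((NU p α).prod (NU p β)).IsAddHaarMeasure := inferInstance

theorem NU_ball (k : ℕ) : NU p α (closedBall 0 ((p : ℝ)⁻¹ ^ k)) =
    ((p : ℝ≥0∞)⁻¹ ^ k) ^ Fintype.card α := by
  unfold NU
  rw [closedBall_pi _ (by positivity), Measure.pi_pi]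
  simp only [Pi.zero_apply, nu_ball0, Finset.prod_const, Finset.card_univ]

/-- linear changes of variables -/
theorem map_lin (g : ((α → ℚ_[p]) × (β → ℚ_[p])) ≃ₗ[ℚ_[p]] (γ → ℚ_[p])) :
    ∃ C : ℝ≥0, 0 < C ∧ Measure.map g ((NU p α).prod (NU p β)) = C • NU p γ := by
  have h1 : (Measure.map g.toContinuousLinearEquiv ((NU p α).prod (NU p β))).IsAddHaarMeasure :=
    inferInstance
  refine ⟨Measure.addHaarScalarFactor (Measure.map g.toContinuousLinearEquiv
    ((NU p α).prod (NU p β))) (NU p γ), Measure.addHaarScalarFactor_pos_of_isAddHaarMeasure _ _, ?_⟩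
  exact Measure.isAddLeftInvariant_eq_smul (Measure.map g.toContinuousLinearEquiv
    ((NU p α).prod (NU p β))) (NU p γ)

theorem FE_lin (g : ((α → ℚ_[p]) × (β → ℚ_[p])) ≃ₗ[ℚ_[p]] (γ → ℚ_[p])) :
    ∃ C : ℝ, 0 < C ∧ ∀ (ρ : (γ → ℚ_[p]) → ℝ), Continuous ρ → ∀ (E : Set (γ → ℚ_[p])), CO E →
      ∀ s : ℝ, 0 ≤ s → FE ((NU p α).prod (NU p β)) (fun z => ρ (g z)) (g ⁻¹' E) s =
        C * FE (NU p γ) ρ E s := by
  obtain ⟨C, hC, h⟩ := map_lin g
  refine ⟨C, hC, fun ρ hρ E hE s hs => ?_⟩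
  unfold FE
  have hg : Measurable g := g.toContinuousLinearEquiv.continuous.measurable
  rw [← setLIntegral_map hE.2.measurableSet (rs_meas hρ hs) hg, h, Measure.restrict_smul,
    lintegral_smul_measure]
  rw [ENNReal.smul_def, smul_eq_mul, ENNReal.toReal_mul, ENNReal.coe_toReal, Complex.ofReal_mul]

/-- scaling by `p` -/
theorem FE_scale (ρ : (α → ℚ_[p]) → ℝ) (hρ : Continuous ρ) (h0 : ∀ x, 0 ≤ ρ x) (N : ℕ)
    (hN : ∀ x, ρ ((p : ℚ_[p]) • x) = ((p : ℝ)⁻¹) ^ N * ρ x) (r : ℝ) (hr : 0 < r) (s : ℝ)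
    (hs : 0 ≤ s) :
    FE (NU p α) ρ (closedBall 0 ((p : ℝ)⁻¹ * r)) s =
      ((p : ℂ)⁻¹) ^ Fintype.card α * ((tr' p s : ℝ) : ℂ) ^ N * FE (NU p α) ρ (closedBall 0 r) s := by
  have hp : (p : ℚ_[p]) ≠ 0 := by exact_mod_cast (Fact.out : p.Prime).ne_zero
  have hpR : (0 : ℝ) < p := by exact_mod_cast (Fact.out : p.Prime).pos
  set h : (α → ℚ_[p]) ≃ₗ[ℚ_[p]] (α → ℚ_[p]) := LinearEquiv.smulOfNeZero ℚ_[p] _ (p : ℚ_[p]) hp
    with hh
  have h1 : (Measure.map h.toContinuousLinearEquiv (NU p α)).IsAddHaarMeasure := inferInstance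
  obtain ⟨C, hC⟩ : ∃ C : ℝ≥0, Measure.map h (NU p α) = C • NU p α :=
    ⟨_, Measure.isAddLeftInvariant_eq_smul (Measure.map h.toContinuousLinearEquiv (NU p α))
      (NU p α)⟩
  have hm : Measurable h := h.toContinuousLinearEquiv.continuous.measurable
  have hpre : ∀ r : ℝ, h ⁻¹' closedBall 0 ((p : ℝ)⁻¹ * r) = closedBall 0 r := by
    intro r
    ext x
    rw [Set.mem_preimage, mem_closedBall, mem_closedBall, dist_zero_right, dist_zero_right]
    change ‖(p : ℚ_[p]) • x‖ ≤ _ ↔ _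
    rw [norm_smul, Padic.norm_p]
    exact mul_le_mul_iff_right₀ (inv_pos.2 hpR)
  have hCv : (C : ℝ≥0∞) = (p : ℝ≥0∞) ^ Fintype.card α := by
    have h2 : (Measure.map h (NU p α)) (closedBall 0 ((p : ℝ)⁻¹ * 1)) =
      (C • NU p α) (closedBall 0 ((p : ℝ)⁻¹ * 1)) := by rw [hC]
    rw [Measure.map_apply hm isClosed_closedBall.measurableSet, hpre] at h2
    have h3 := NU_ball (p := p) (α := α) 0
    have h4 := NU_ball (p := p) (α := α) 1
    rw [pow_zero, pow_zero, one_pow] at h3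
    rw [pow_one, pow_one] at h4
    rw [mul_one, Measure.smul_apply, h3, h4, ENNReal.smul_def, smul_eq_mul] at h2
    rw [← ENNReal.inv_pow] at h2
    have h5 : (p : ℝ≥0∞) ^ Fintype.card α ≠ 0 :=
      pow_ne_zero _ (by exact_mod_cast (Fact.out : p.Prime).ne_zero)
    have h6 : (p : ℝ≥0∞) ^ Fintype.card α ≠ ⊤ := ENNReal.pow_ne_top (ENNReal.natCast_ne_top p)
    rw [← div_eq_mul_inv, eq_comm, ENNReal.div_eq_one_iff h5 h6] at h2
    exact h2
  have hCr : (C : ℝ) = (p : ℝ) ^ Fintype.card α := by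
    have h2 := congrArg ENNReal.toReal hCv
    rwa [ENNReal.coe_toReal, ENNReal.toReal_pow, ENNReal.toReal_natCast] at h2
  -- the two sides
  have h2 : FE (NU p α) (fun x => ρ (h x)) (closedBall 0 r) s =
      C * FE (NU p α) ρ (closedBall 0 ((p : ℝ)⁻¹ * r)) s := by
    unfold FE
    rw [← hpre, ← setLIntegral_map isClosed_closedBall.measurableSet (rs_meas hρ hs) hm, hC,
      Measure.restrict_smul, lintegral_smul_measure]
    rw [ENNReal.smul_def, smul_eq_mul, ENNReal.toReal_mul, ENNReal.coe_toReal, Complex.ofReal_mul]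
  have h3 : FE (NU p α) (fun x => ρ (h x)) (closedBall 0 r) s =
      ((((p : ℝ)⁻¹ ^ N) ^ s : ℝ) : ℂ) * FE (NU p α) ρ (closedBall 0 r) s :=
    FE_mul _ (CO.ball _ hr) _ (by positivity) (fun x _ => hN x) h0 s
  have h4 : (((p : ℝ)⁻¹ ^ N) ^ s : ℝ) = tr' p s ^ N := by
    rw [tr', Real.rpow_neg hpR.le, ← Real.inv_rpow hpR.le, ← Real.rpow_natCast,
      ← Real.rpow_natCast, ← Real.rpow_mul (by positivity), ← Real.rpow_mul (by positivity),
      mul_comm]
  rw [h3, h4, hCr] at h2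
  have hpC : (p : ℂ) ≠ 0 := by exact_mod_cast (Fact.out : p.Prime).ne_zero
  push_cast at h2
  rw [inv_pow, mul_assoc, h2, ← mul_assoc, inv_mul_cancel₀ (pow_ne_zero _ hpC), one_mul]

end Pool.Agent.R852.SP
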