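import Pool.Agent.R852.SP.Zeta

set_option autoImplicit false
set_option linter.unusedSectionVars false
set_option linter.unusedVariables false

/-! # Irreducible flats of subspaces -/

namespace Pool.Agent.R852.SP

open Pool.Agent.TH187.SA (Occurs IsReesFlat zeros mult mem_zeros)
open scoped ENNReal NNReal

/-- `X` is an irreducible flat of the subspaces `H s`, `s ∈ A`: it is a proper subspace, it is the
intersection of the `H s ⊇ X`, `s ∈ A`, and if `P + Q` is the whole space and every `H s ⊇ X`,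
`s ∈ A`, contains `P` or `Q`, then all of them contain `P`, or all of them contain `Q`. -/
def IsIrrFlat {V : Type} [AddCommGroup V] [Module ℂ V] {S : Type} (H : S → Submodule ℂ V)
    (A : S → Prop) (X : Submodule ℂ V) : Prop :=
  X ≠ ⊤ ∧ (∀ v, (∀ s, A s → X ≤ H s → v ∈ H s) → v ∈ X) ∧
  ∀ P Q : Submodule ℂ V, P ⊔ Q = ⊤ → (∀ s, A s → X ≤ H s → P ≤ H s ∨ Q ≤ H s) →
    (∀ s, A s → X ≤ H s → P ≤ H s) ∨ (∀ s, A s → X ≤ H s → Q ≤ H s)

section lat

variable {V : Type} [AddCommGroup V] [Module ℂ V] {S : Type} [DecidableEq S]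
  (H : S → Submodule ℂ V) (A : S → Prop)

theorem mem_of_closed {B : Finset {s // A s}} (hB : Closed (fun s : {s // A s} => H s.1) B)
    (s : {s // A s}) : Zf (fun s : {s // A s} => H s.1) B ≤ H s.1 ↔ s ∈ B :=
  ⟨fun h => hB s h, fun h => Zf_le h⟩

theorem isIrr_of_conn (hH : ∀ s, A s → H s ≠ ⊤) {B : Finset {s // A s}}
    (hB : Closed (fun s : {s // A s} => H s.1) B) (hC : Conn (fun s : {s // A s} => H s.1) B) :
    IsIrrFlat H A (Zf (fun s : {s // A s} => H s.1) B) := by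
  classical
  refine ⟨fun h => ?_, fun v hv => ?_, fun P Q hPQ hs => ?_⟩
  · obtain ⟨s, hs⟩ := hC.1
    apply hH s.1 s.2
    rw [eq_top_iff, ← h]
    exact Zf_le hs
  · exact mem_Zf.2 fun s hs => hv s.1 s.2 (Zf_le hs)
  · by_contra hcon
    push Not at hcon
    obtain ⟨⟨s1, hA1, h1, h1'⟩, s2, hA2, h2, h2'⟩ := hcon
    set B1 : Finset {s // A s} := B.filter fun s => P ≤ H s.1 with hB1
    have hs2 : (⟨s2, hA2⟩ : {s // A s}) ∈ B1 :=
      Finset.mem_filter.2 ⟨hB _ h2, (hs s2 hA2 h2).resolve_right h2'⟩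
    have hs1 : (⟨s1, hA1⟩ : {s // A s}) ∈ B \ B1 := by
      rw [Finset.mem_sdiff]
      exact ⟨hB _ h1, fun h => h1' (Finset.mem_filter.1 h).2⟩
    refine hC.2 B1 (Finset.filter_subset _ _) ⟨_, hs2⟩ ⟨_, hs1⟩ ?_
    rw [eq_top_iff, ← hPQ]
    refine sup_le_sup (fun x hx => mem_Zf.2 fun s hs' => (Finset.mem_filter.1 hs').2 hx)
      fun x hx => mem_Zf.2 fun s hs' => ?_
    rw [Finset.mem_sdiff, Finset.mem_filter] at hs'
    have h3 := hs s.1 s.2 (Zf_le hs'.1)
    rcases h3 with h3 | h3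
    · exact absurd ⟨hs'.1, h3⟩ hs'.2
    · exact h3 hx

end lat

variable {σ S T : Type} [Fintype σ] [DecidableEq σ] [Fintype S] [DecidableEq S] [Fintype T]
  [DecidableEq T] {κ : S → Type} [∀ s, Fintype (κ s)] [∀ s, DecidableEq (κ s)]

/-- The subspace of `ℂ ^ σ` given by the linear forms with the coefficients `c s j`. -/
def sub (c : (s : S) → κ s → σ → ℚ) (s : S) : Submodule ℂ (σ → ℂ) :=
  zeros fun j i => (c s j i : ℂ)

theorem HL_eq (c : (s : S) → κ s → σ → ℚ) (s : S) : HL c ℂ s = sub c s := by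
  ext x
  unfold HL sub cL
  rw [LinearMap.mem_ker, mem_zeros, Matrix.mulVecLin_apply]
  constructor
  · intro h j
    exact congrFun h j
  · intro h
    funext j
    exact h j

theorem sub_ne_top (c : (s : S) → κ s → σ → ℚ) (s : S) (hc : ∃ j, c s j ≠ 0) : sub c s ≠ ⊤ := by
  intro h
  obtain ⟨j, hj⟩ := hc
  obtain ⟨i, hi⟩ := Function.ne_iff.1 hj
  have h1 : (Pi.single i 1 : σ → ℂ) ∈ sub c s := by rw [h]; trivial
  unfold sub at h1
  rw [mem_zeros] at h1
  have h2 := h1 j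
  rw [dotProduct_single, mul_one] at h2
  exact hi (by exact_mod_cast h2)

variable (c : (s : S) → κ s → σ → ℚ) (e : T → S → ℕ) (a : T → ℕ)

/-- The multiplicity of `f` along the exceptional divisor of `X`. -/
noncomputable def Nu (X : Submodule ℂ (σ → ℂ)) : ℕ := ∑ t, a t * mult (sub c) (e t) X

open Classical in
theorem HO_eq : HL (cO c e a) ℂ = fun s : Occ e a => sub c s.1 := by
  funext s
  exact HL_eq (cO c e a) s

theorem sum_tot {B : Finset (Occ e a)} (hB : Closed (fun s : Occ e a => sub c s.1) B) :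
    ∑ s ∈ B, tot e a s.1 = Nu c e a (Zf (fun s : Occ e a => sub c s.1) B) := by
  classical
  unfold Nu mult
  have h1 : ∀ t, a t * ∑ s, (if Zf (fun s : Occ e a => sub c s.1) B ≤ sub c s then e t s else 0) =
      ∑ s, (if Zf (fun s : Occ e a => sub c s.1) B ≤ sub c s then a t * e t s else 0) := by
    intro t
    rw [Finset.mul_sum]
    refine Finset.sum_congr rfl fun s _ => ?_
    rw [mul_ite, mul_zero]
  have h2 : ∑ t, a t * ∑ s, (if Zf (fun s : Occ e a => sub c s.1) B ≤ sub c s then e t s else 0) =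
      ∑ s, (if Zf (fun s : Occ e a => sub c s.1) B ≤ sub c s then tot e a s else 0) := by
    rw [Finset.sum_congr rfl fun t _ => h1 t, Finset.sum_comm]
    refine Finset.sum_congr rfl fun s _ => ?_
    unfold tot
    split_ifs
    · rfl
    · exact Finset.sum_const_zero
  have h3 : ∑ s, (if Zf (fun s : Occ e a => sub c s.1) B ≤ sub c s then tot e a s else 0) =
      ∑ s ∈ Finset.univ.filter (fun s => Occurs e a s),
        (if Zf (fun s : Occ e a => sub c s.1) B ≤ sub c s then tot e a s else 0) := by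
    symm
    refine Finset.sum_filter_of_ne fun s _ hs => ?_
    rw [occurs_iff]
    intro h0
    exact hs (by rw [h0]; split_ifs <;> rfl)
  have h4 : ∑ s ∈ Finset.univ.filter (fun s => Occurs e a s),
        (if Zf (fun s : Occ e a => sub c s.1) B ≤ sub c s then tot e a s else 0) =
      ∑ s : Occ e a, (if Zf (fun s : Occ e a => sub c s.1) B ≤ sub c s.1 then tot e a s.1 else 0) :=
    Finset.sum_subtype _ (fun s => by simp) _
  refine Eq.trans ?_ (h2.trans (h3.trans h4)).symm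
  simp only [mem_of_closed (sub c) (Occurs e a) hB]
  rw [Finset.sum_ite_mem, Finset.univ_inter]

open Classical in
theorem exists_res (hc : ∀ s, ∃ j, c s j ≠ 0) (p : ℕ) (z : ℂ) (h : 1 ≤ mO p c e a z) :
    ∃ X, IsIrrFlat (sub c) (Occurs e a) X ∧
      z ^ Nu c e a X = (p : ℂ) ^ (Fintype.card σ - Module.finrank ℂ X) := by
  unfold mO mA at h
  rw [HO_eq] at h
  obtain ⟨𝒩, h1, h2, h3⟩ := exists_mx (H := fun s : Occ e a => sub c s.1)
    (Finset.univ.powerset.filter fun B => Closed (fun s : Occ e a => sub c s.1) B ∧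
      Conn (fun s : Occ e a => sub c s.1) B ∧
        Res p (fun s : Occ e a => sub c s.1) (fun s => tot e a s.1) B z)
  have h4 : 𝒩.Nonempty := by
    rw [← Finset.card_pos, h3]
    exact h
  obtain ⟨B, hB⟩ := h4
  have h5 := h1 hB
  rw [Finset.mem_filter] at h5
  obtain ⟨-, h6, h7, h8⟩ := h5
  refine ⟨Zf (fun s : Occ e a => sub c s.1) B, isIrr_of_conn (sub c) _ (fun s _ =>
    sub_ne_top c s (hc s)) h6 h7, ?_⟩
  unfold Res at h8
  rw [sum_tot c e a h6, Module.finrank_fintype_fun_eq_card] at h8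
  exact h8

open Classical in
theorem exists_two (hc : ∀ s, ∃ j, c s j ≠ 0) (p : ℕ) (z : ℂ) (h : 2 ≤ mO p c e a z) :
    ∃ X Y, IsIrrFlat (sub c) (Occurs e a) X ∧ IsIrrFlat (sub c) (Occurs e a) Y ∧ X ≠ Y ∧
      (X ≤ Y ∨ X ⊔ Y = ⊤) ∧
      z ^ Nu c e a X = (p : ℂ) ^ (Fintype.card σ - Module.finrank ℂ X) ∧
      z ^ Nu c e a Y = (p : ℂ) ^ (Fintype.card σ - Module.finrank ℂ Y) := by
  unfold mO mA at h
  rw [HO_eq] at h
  obtain ⟨𝒩, h1, h2, h3⟩ := exists_mx (H := fun s : Occ e a => sub c s.1)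
    (Finset.univ.powerset.filter fun B => Closed (fun s : Occ e a => sub c s.1) B ∧
      Conn (fun s : Occ e a => sub c s.1) B ∧
        Res p (fun s : Occ e a => sub c s.1) (fun s => tot e a s.1) B z)
  have key : ∀ B ∈ 𝒩, Closed (fun s : Occ e a => sub c s.1) B ∧
      IsIrrFlat (sub c) (Occurs e a) (Zf (fun s : Occ e a => sub c s.1) B) ∧
      z ^ Nu c e a (Zf (fun s : Occ e a => sub c s.1) B) = (p : ℂ) ^ (Fintype.card σ -
        Module.finrank ℂ (Zf (fun s : Occ e a => sub c s.1) B)) := by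
    intro B hB
    have h5 := h1 hB
    rw [Finset.mem_filter] at h5
    obtain ⟨-, h6, h7, h8⟩ := h5
    unfold Res at h8
    rw [sum_tot c e a h6, Module.finrank_fintype_fun_eq_card] at h8
    exact ⟨h6, isIrr_of_conn (sub c) _ (fun s _ => sub_ne_top c s (hc s)) h6 h7, h8⟩
  have hinj : ∀ B ∈ 𝒩, ∀ C ∈ 𝒩, Zf (fun s : Occ e a => sub c s.1) B =
      Zf (fun s : Occ e a => sub c s.1) C → B = C := by
    intro B hB C hC hBC
    ext s
    rw [← mem_of_closed (sub c) _ (key B hB).1 s, hBC, mem_of_closed (sub c) _ (key C hC).1 s]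
  have h4 : 1 < 𝒩.card := by
    rw [h3]
    exact h
  obtain ⟨B, hB, C, hC, hne⟩ := Finset.one_lt_card.1 h4
  have hkB := key B hB
  have hkC := key C hC
  rcases h2 B hB C hC with h5 | h5 | h5
  · exact ⟨_, _, hkC.2.1, hkB.2.1, fun h6 => hne (hinj C hC B hB h6).symm, Or.inl (Zf_anti h5),
      hkC.2.2, hkB.2.2⟩
  · exact ⟨_, _, hkB.2.1, hkC.2.1, fun h6 => hne (hinj B hB C hC h6), Or.inl (Zf_anti h5),
      hkB.2.2, hkC.2.2⟩
  · exact ⟨_, _, hkB.2.1, hkC.2.1, fun h6 => hne (hinj B hB C hC h6), Or.inr h5,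
      hkB.2.2, hkC.2.2⟩

end Pool.Agent.R852.SP
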