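import Pool.Agent.R852.SP.Cop

set_option autoImplicit false
set_option linter.unusedSectionVars false
set_option linter.unusedVariables false

/-! # Final statements -/

namespace Pool.Agent.R852.SP

open Polynomial Pool.Agent.W427.SMC Pool.Agent.Y230.PT Pool.Agent.Y230.PS Pool.Agent.R852.PP
open Pool.Agent.TH187.SA (Occurs IsReesFlat zeros mult mem_zeros)
open Pool.Agent.H628R4.TP (IsBFunction)

variable {σ S T : Type} [Fintype σ] [DecidableEq σ] [Fintype S] [DecidableEq S] [Fintype T]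
  [DecidableEq T] {κ : S → Type} [∀ s, Fintype (κ s)] [∀ s, DecidableEq (κ s)]

/-- `Re s₀ = -codim X / N_X`, where `N_X = ∑ t, a t ∑ e t s`, the second sum over the `s` for which
the subspace of index `s` contains `X` (`Nu`). -/
def IsLevel (c : (s : S) → κ s → σ → ℚ) (e : T → S → ℕ) (a : T → ℕ)
    (X : Submodule ℂ (σ → ℂ)) (s₀ : ℂ) : Prop :=
  ((Fintype.card σ - Module.finrank ℂ X : ℕ) : ℝ) = -s₀.re * Nu c e a X

/-- integer coefficients as rational coefficients -/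
def toQ (c : (s : S) → κ s → σ → ℤ) (s : S) (j : κ s) (i : σ) : ℚ := (c s j i : ℚ)

theorem toQ_ne (c : (s : S) → κ s → σ → ℤ) (hc : ∀ s, ∃ j, c s j ≠ 0) (s : S) :
    ∃ j, toQ c s j ≠ 0 := by
  obtain ⟨j, hj⟩ := hc s
  refine ⟨j, fun h => hj ?_⟩
  funext i
  have h1 := congrFun h i
  have h2 : (c s j i : ℚ) = 0 := h1
  exact_mod_cast h2

theorem map_Z (c : (s : S) → κ s → σ → ℤ) (e : T → S → ℕ) (a : T → ℕ) :
    MvPolynomial.map (Int.castRingHom ℚ) (arrForm c e a) = arrForm (toQ c) e a :=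
  map_arrForm _ _ _ _

theorem map_ZC (c : (s : S) → κ s → σ → ℤ) (e : T → S → ℕ) (a : T → ℕ) :
    MvPolynomial.map (algebraMap ℚ ℂ) (arrForm (toQ c) e a) =
      MvPolynomial.map (Int.castRingHom ℂ) (arrForm c e a) := by
  rw [← map_Z, MvPolynomial.map_map]
  congr 1

variable {p : ℕ} [Fact p.Prime]

theorem final_Z (c : (s : S) → κ s → σ → ℤ) (hc : ∀ s, ∃ j, c s j ≠ 0) (e : T → S → ℕ)
    (a : T → ℕ) (ht : ∃ t, a t ≠ 0) (b : ℂ[X]) (hb0 : b ≠ 0)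
    (hb : IsBFunction (MvPolynomial.map (Int.castRingHom ℂ) (arrForm c e a)) b)
    (Z : ℂ → ℂ) (hZ : MeromorphicOn Z Set.univ)
    (hZp : ∀ s : ℂ, 0 < s.re → Z s = igusaZeta p (arrForm c e a) s) (s₀ : ℂ)
    (hR : ∀ X, IsIrrFlat (sub (toQ c)) (Occurs e a) X → IsLevel (toQ c) e a X s₀ →
      IsReesFlat (sub (toQ c)) (Occurs e a) X) :
    (meromorphicOrderAt Z s₀ < 0 → b.eval (s₀.re : ℂ) = 0) ∧
    ((∀ X Y, IsIrrFlat (sub (toQ c)) (Occurs e a) X → IsIrrFlat (sub (toQ c)) (Occurs e a) Y →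
        X ≠ Y → (X ≤ Y ∨ X ⊔ Y = ⊤) → IsLevel (toQ c) e a X s₀ → ¬ IsLevel (toQ c) e a Y s₀) →
      ((-(b.rootMultiplicity (s₀.re : ℂ) : ℤ) : ℤ) : WithTop ℤ) ≤ meromorphicOrderAt Z s₀) := by
  have hZ' : ∀ s : ℂ, 0 < s.re → Z s = zetaQ p (arrForm (toQ c) e a) s := fun s hs => by
    rw [hZp s hs, igusa_Q, map_Z]
  rw [← map_ZC] at hb
  exact ⟨root_arr (toQ c) e a Z hZ hZ' (toQ_ne c hc) s₀ hR b hb,
    mult_arr (toQ c) e a Z hZ hZ' (toQ_ne c hc) ht s₀ hR b hb0 hb⟩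

end Pool.Agent.R852.SP
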