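import Pool.Agent.R852.SP.Last
import Pool.Agent.R852.PP.Main

set_option autoImplicit false
set_option linter.unusedSectionVars false
set_option linter.unusedVariables false

/-! # The Poincare series -/

namespace Pool.Agent.R852.SP

open Polynomial Pool.Agent.W427.SMC Pool.Agent.Y230.PT Pool.Agent.Y230.PS Pool.Agent.R852.PP
open Pool.Agent.TH187.SA (Occurs IsReesFlat zeros mult mem_zeros)
open Pool.Agent.H628R4.TP (IsBFunction)

variable {σ S T : Type} [Fintype σ] [DecidableEq σ] [Fintype S] [DecidableEq S] [Fintype T]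
  [DecidableEq T] {κ : S → Type} [∀ s, Fintype (κ s)] [∀ s, DecidableEq (κ s)]
  (c : (s : S) → κ s → σ → ℚ) (e : T → S → ℕ) (a : T → ℕ)

variable {p : ℕ} [Fact p.Prime]

theorem lev_of_res' (z : ℂ) (X : Submodule ℂ (σ → ℂ)) (hX : X ≠ ⊤)
    (hz : z ^ Nu c e a X = (p : ℂ) ^ (Fintype.card σ - Module.finrank ℂ X)) :
    ((Fintype.card σ - Module.finrank ℂ X : ℕ) : ℝ) = -(rr p z) * Nu c e a X := by
  have hpos : 0 < Fintype.card σ - Module.finrank ℂ X := by
    have h2 := Submodule.finrank_lt hX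
    rw [Module.finrank_fintype_fun_eq_card] at h2
    omega
  obtain ⟨hN, h5⟩ := rr_res (p := p) hpos hz
  have h6 : ((rr p z : ℝ) : ℂ) * (Nu c e a X : ℕ) =
      -((Fintype.card σ - Module.finrank ℂ X : ℕ) : ℂ) := by
    rw [h5, div_mul_cancel₀]
    exact_mod_cast hN.ne'
  have h7 : rr p z * (Nu c e a X : ℝ) =
      -((Fintype.card σ - Module.finrank ℂ X : ℕ) : ℝ) := by exact_mod_cast h6
  linarith

theorem root_key (hc : ∀ s, ∃ j, c s j ≠ 0) (z : ℂ)
    (h2 : 0 < mO p c e a z + cnt p a z)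
    (hR : ∀ X, IsIrrFlat (sub c) (Occurs e a) X →
      ((Fintype.card σ - Module.finrank ℂ X : ℕ) : ℝ) = -(rr p z) * Nu c e a X →
      IsReesFlat (sub c) (Occurs e a) X)
    (b : ℂ[X]) (hb : IsBFunction (MvPolynomial.map (algebraMap ℚ ℂ) (arrForm c e a)) b) :
    b.eval ((rr p z : ℝ) : ℂ) = 0 := by
  have key : ∀ k, k ≤ 1 → (k = 1 → 1 ≤ mO p c e a z) → 0 < k + cnt p a z →
      b.eval ((rr p z : ℝ) : ℂ) = 0 := by
    intro k hk hk1 hpos
    have ht : ∃ t0, a t0 ≠ 0 := by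
      by_contra hcon
      push Not at hcon
      have h4 : cnt p a z = 0 := by
        classical
        unfold cnt
        rw [Finset.card_eq_zero, Finset.filter_eq_empty_iff]
        intro t _ h
        rw [hcon t, pow_zero] at h
        have h5 : (p : ℂ) ≠ 1 := by exact_mod_cast (Fact.out : p.Prime).one_lt.ne'
        exact h5 h.symm
      have h5 : k = 1 := by omega
      obtain ⟨X, hX, -⟩ := exists_res c e a hc p _ (hk1 h5)
      apply hX.1
      rw [eq_top_iff]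
      intro v _
      refine hX.2.1 v fun s hs => ?_
      obtain ⟨t, ht, _⟩ := hs
      exact absurd (hcon t) ht
    obtain ⟨t0, ht0⟩ := ht
    have h6 := dvd_b (p := p) c e a hc t0 ht0 b hb z k hk fun h => by
      obtain ⟨X, hX, hz⟩ := exists_res c e a hc p _ (hk1 h)
      exact ⟨X, hR X hX (lev_of_res' c e a z X hX.1 hz), hz⟩
    exact dvd_iff_isRoot.1 ((dvd_pow_self _ hpos.ne').trans h6)
  by_cases h7 : 1 ≤ mO p c e a z
  · exact key 1 le_rfl (fun _ => h7) (by omega)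
  · exact key 0 (by omega) (fun h => by omega) (by omega)

/-- **The poles of the Poincare series.** -/
theorem poin_arr (c : (s : S) → κ s → σ → ℤ) (hc : ∀ s, ∃ j, c s j ≠ 0) (e : T → S → ℕ)
    (a : T → ℕ) (b : ℂ[X])
    (hb : IsBFunction (MvPolynomial.map (Int.castRingHom ℂ) (arrForm c e a)) b) :
    ∃ Φ : RatFunc ℂ, ((Φ.denom : ℂ[X]) : PowerSeries ℂ) * poincare p (arrForm c e a) =
        ((Φ.num : ℂ[X]) : PowerSeries ℂ) ∧
      ∀ T₀ : ℂ, Φ.denom.eval T₀ = 0 →
        (∀ X, IsIrrFlat (sub (toQ c)) (Occurs e a) X →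
          IsLevel (toQ c) e a X ((-Real.log ‖T₀‖ / Real.log p : ℝ) : ℂ) →
          IsReesFlat (sub (toQ c)) (Occurs e a) X) →
        b.eval ((-Real.log ‖T₀‖ / Real.log p : ℝ) : ℂ) = 0 := by
  obtain ⟨D, P, hD0, h1, h2⟩ := rat_arr (p := p) (toQ c) e a (toQ_ne c hc)
  obtain ⟨Φ, h3, h4, h5⟩ := poincare_of p (arrForm c e a) D P hD0 (fun s hs => by
    rw [← h1 s hs]
    congr 1
    have h3 := FF_hyp (p := p) (arrForm (toQ c) e a) s
    rw [← map_Z] at h3 ⊢
    simp only [tau_N]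
    exact h3.symm)
  refine ⟨Φ, h3, fun T₀ hT0 hR => ?_⟩
  have hd : Φ.denom ≠ 0 := Φ.denom_ne_zero
  have h6 : Φ.denom.rootMultiplicity T₀ ≠ 0 := by
    rw [Ne, Polynomial.rootMultiplicity_eq_zero_iff]
    intro h
    exact hd (h hT0)
  have hT : T₀ ≠ 0 := by
    rintro rfl
    exact h6 h4
  have h7 := h5 T₀
  have h8 := h2 T₀ hT
  rw [← map_ZC] at hb
  refine root_key (p := p) (toQ c) e a (toQ_ne c hc) T₀ (by omega) (fun X hX hl => ?_) b hb
  refine hR X hX ?_
  unfold IsLevel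
  rw [Complex.ofReal_re]
  exact hl

end Pool.Agent.R852.SP
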