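import Mathlib

set_option autoImplicit false
set_option linter.unusedSectionVars false
set_option linter.unusedVariables false

/-! # Compact open sets of ultrametric spaces -/

namespace Pool.Agent.R852.SP

open Metric Set

variable {X : Type} [MetricSpace X] [IsUltrametricDist X]

/-- compact open sets -/
def CO (E : Set X) : Prop := IsCompact E ∧ IsOpen E

theorem CO.empty : CO (∅ : Set X) := ⟨isCompact_empty, isOpen_empty⟩

theorem CO.inter_clopen {E F : Set X} (h : CO E) (hF : IsClopen F) : CO (E ∩ F) :=
  ⟨h.1.inter_right hF.1, h.2.inter hF.2⟩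

theorem CO.diff_clopen {E F : Set X} (h : CO E) (hF : IsClopen F) : CO (E \ F) :=
  h.inter_clopen hF.compl

theorem CO.union {E F : Set X} (h : CO E) (hF : CO F) : CO (E ∪ F) :=
  ⟨h.1.union hF.1, h.2.union hF.2⟩

theorem CO.ball [ProperSpace X] (x : X) {r : ℝ} (hr : 0 < r) : CO (closedBall x r) :=
  ⟨isCompact_closedBall x r, IsUltrametricDist.isOpen_closedBall x hr.ne'⟩

/-- local to global, for properties of all small compact open sets -/
theorem co_local (P : Set X → Prop) (h0 : P ∅)
    (hu : ∀ E F, CO E → CO F → Disjoint E F → P E → P F → P (E ∪ F)) (U : Set X) (hU : CO U)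
    (h : ∀ x ∈ U, ∃ r : ℝ, 0 < r ∧ ∀ E, CO E → E ⊆ closedBall x r → E ⊆ U → P E) : P U := by
  classical
  choose r hr hP using h
  obtain ⟨t, ht⟩ := hU.1.elim_nhds_subcover' (fun x hx => closedBall x (r x hx))
    (fun x hx => closedBall_mem_nhds x (hr x hx))
  have key : ∀ (t : Finset U) (E : Set X), CO E → E ⊆ U →
      E ⊆ ⋃ x ∈ t, closedBall (x : X) (r x x.2) → P E := by
    intro t
    induction t using Finset.induction_on with
    | empty =>
      intro E _ _ h2
      have h3 : E = ∅ := by
        rw [← Set.subset_empty_iff]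
        simpa using h2
      rw [h3]
      exact h0
    | insert a t ha ih =>
      intro E h1 h2 h3
      have hcl : IsClopen (closedBall (a : X) (r a a.2)) :=
        IsUltrametricDist.isClopen_closedBall (a : X) (hr a a.2).ne'
      have h4 : E = (E ∩ closedBall (a : X) (r a a.2)) ∪ (E \ closedBall (a : X) (r a a.2)) :=
        (Set.inter_union_sdiff _ _).symm
      rw [h4]
      refine hu _ _ (h1.inter_clopen hcl) (h1.diff_clopen hcl)
        (Set.disjoint_sdiff_right.mono_left Set.inter_subset_right) ?_ ?_
      · exact hP a a.2 _ (h1.inter_clopen hcl) Set.inter_subset_right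
          (Set.inter_subset_left.trans h2)
      · refine ih _ (h1.diff_clopen hcl) (Set.sdiff_subset.trans h2) fun x hx => ?_
        have h5 := h3 hx.1
        rw [Finset.set_biUnion_insert] at h5
        rcases h5 with h5 | h5
        · exact absurd h5 hx.2
        · exact h5
  exact key t U hU (le_refl U) ht

/-- a compact open set is the disjoint union of finitely many balls -/
theorem co_balls [ProperSpace X] (P : Set X → Prop) (h0 : P ∅)
    (hu : ∀ E F, CO E → CO F → Disjoint E F → P E → P F → P (E ∪ F)) (U : Set X) (hU : CO U)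
    (h : ∀ x ∈ U, ∀ r : ℝ, 0 < r → closedBall x r ⊆ U → P (closedBall x r)) : P U := by
  classical
  obtain ⟨r, hr, hrU⟩ := hU.1.exists_cthickening_subset_open hU.2 (le_refl U)
  have hb : ∀ x ∈ U, closedBall x r ⊆ U := fun x hx =>
    (closedBall_subset_cthickening hx r).trans hrU
  obtain ⟨t, ht1, ht⟩ := hU.1.elim_nhds_subcover (fun x => closedBall x r)
    (fun x hx => closedBall_mem_nhds x hr)
  have hCO : ∀ t : Finset X, CO (⋃ x ∈ t, closedBall x r) := by
    intro t
    refine ⟨t.finite_toSet.isCompact_biUnion fun x _ => isCompact_closedBall x r, ?_⟩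
    exact isOpen_biUnion fun x _ => IsUltrametricDist.isOpen_closedBall x hr.ne'
  have key : ∀ t : Finset X, (∀ x ∈ t, x ∈ U) → P (⋃ x ∈ t, closedBall x r) := by
    intro t
    induction t using Finset.induction_on with
    | empty =>
      intro _
      simpa using h0
    | insert a t ha ih =>
      intro h1
      rw [Finset.set_biUnion_insert]
      have h2 := ih fun x hx => h1 x (Finset.mem_insert_of_mem hx)
      have ha' := h1 a (Finset.mem_insert_self a t)
      by_cases h3 : Disjoint (closedBall a r) (⋃ x ∈ t, closedBall x r)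
      · exact hu _ _ (CO.ball a hr) (hCO t) h3 (h a ha' r hr (hb a ha')) h2
      · rw [Set.not_disjoint_iff] at h3
        obtain ⟨z, hz1, hz2⟩ := h3
        rw [Set.mem_iUnion₂] at hz2
        obtain ⟨x, hx, hz3⟩ := hz2
        have h4 : closedBall a r = closedBall x r :=
          (IsUltrametricDist.closedBall_eq_of_mem hz1).trans
            (IsUltrametricDist.closedBall_eq_of_mem hz3).symm
        rw [Set.union_eq_self_of_subset_left]
        · exact h2
        · rw [h4]
          exact Set.subset_biUnion_of_mem (u := fun x => closedBall x r) hx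
  have h5 : U = ⋃ x ∈ t, closedBall x r :=
    Set.Subset.antisymm ht (Set.iUnion₂_subset fun x hx => hb x (ht1 x hx))
  rw [h5]
  exact key t ht1

instance prodUltra {Y : Type} [MetricSpace Y] [IsUltrametricDist Y] :
    IsUltrametricDist (X × Y) := ⟨fun x y z => by
  rw [Prod.dist_eq, Prod.dist_eq, Prod.dist_eq]
  refine max_le ?_ ?_
  · refine (dist_triangle_max x.1 y.1 z.1).trans (max_le_max (le_max_left _ _) (le_max_left _ _))
  · refine (dist_triangle_max x.2 y.2 z.2).trans (max_le_max (le_max_right _ _)
      (le_max_right _ _))⟩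

end Pool.Agent.R852.SP
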