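import Pool.Agent.R852.SP.Ind
import Pool.Agent.R852.SP.Field
import Pool.Agent.R852.PP.Main
import Pool.Agent.TH187.SA.Classes

set_option autoImplicit false
set_option linter.unusedSectionVars false
set_option linter.unusedVariables false

/-! # The zeta functions of products of powers of forms over products of linear ideals -/

namespace Pool.Agent.R852.SP

open MeasureTheory Metric MvPolynomial Pool.Agent.W427.SMC Pool.Agent.Y230.PT Pool.Agent.Y230.PS
open Pool.Agent.R852.PP
open Pool.Agent.TH187.SA (Occurs)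
open scoped ENNReal NNReal

attribute [local instance] msK bsK msZ bsZ

section defs

variable {R : Type} [CommRing R] {σ S T : Type} [Fintype σ] [DecidableEq σ] [Fintype S]
  [DecidableEq S] [Fintype T] [DecidableEq T] {κ : S → Type} [∀ s, Fintype (κ s)]
  [∀ s, DecidableEq (κ s)]

/-- The linear form `∑ c i x i`. -/
noncomputable def linR (c : σ → R) : MvPolynomial σ R := ∑ i, C (c i) * X i

/-- The product of linear forms, `e s` of them from the family of index `s`. -/
noncomputable def arrM (c : (s : S) → κ s → σ → R) (e : S → ℕ)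
    (J : (q : Σ s, Fin (e s)) → κ q.1) : MvPolynomial σ R :=
  ∏ q, linR (c q.1 (J q))

/-- The polynomial `∏ t, (∑_J y_{t, J} M_{t, J}(x)) ^ a t`, where the `M_{t, J}` are the products
`arrM c (e t) J`, and the `y_{t, J}` are further variables. -/
noncomputable def arrForm (c : (s : S) → κ s → σ → R) (e : T → S → ℕ) (a : T → ℕ) :
    MvPolynomial ((Σ t, ((q : Σ s, Fin (e t s)) → κ q.1)) ⊕ σ) R :=
  ∏ t, (∑ J, X (Sum.inl ⟨t, J⟩) * rename Sum.inr (arrM c (e t) J)) ^ a t

theorem map_linR {R' : Type} [CommRing R'] (φ : R →+* R') (c : σ → R) :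
    map φ (linR c) = linR fun i => φ (c i) := by
  unfold linR
  rw [map_sum]
  refine Finset.sum_congr rfl fun i _ => ?_
  rw [map_mul, map_C, map_X]

theorem map_arrM {R' : Type} [CommRing R'] (φ : R →+* R') (c : (s : S) → κ s → σ → R)
    (e : S → ℕ) (J : (q : Σ s, Fin (e s)) → κ q.1) :
    map φ (arrM c e J) = arrM (fun s j i => φ (c s j i)) e J := by
  unfold arrM
  rw [map_prod]
  exact Finset.prod_congr rfl fun q _ => map_linR φ _

theorem map_arrForm {R' : Type} [CommRing R'] (φ : R →+* R') (c : (s : S) → κ s → σ → R)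
    (e : T → S → ℕ) (a : T → ℕ) :
    map φ (arrForm c e a) = arrForm (fun s j i => φ (c s j i)) e a := by
  unfold arrForm
  rw [map_prod]
  refine Finset.prod_congr rfl fun t _ => ?_
  rw [map_pow, map_sum]
  congr 1
  refine Finset.sum_congr rfl fun J _ => ?_
  rw [map_mul, map_X, map_rename, map_arrM]

theorem arrForm_eq (c : (s : S) → κ s → σ → R) (e : T → S → ℕ) (a : T → ℕ) :
    arrForm c e a = rename Sum.inr (1 : MvPolynomial σ R) *
      ∏ t, (∑ J, X (Sum.inl ⟨t, J⟩) * rename Sum.inr (arrM c (e t) J)) ^ a t := by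
  rw [map_one, one_mul]
  rfl

theorem arrForm_C (c : (s : S) → κ s → σ → ℂ) (e : T → S → ℕ) (a : T → ℕ) :
    arrForm c e a =
      Pool.Agent.TH192.DT.powProd a (fun t => Pool.Agent.TH187.SA.arrGen c (e t)) := rfl

end defs

variable {p : ℕ} [Fact p.Prime] {σ S T : Type} [Fintype σ] [DecidableEq σ] [Fintype S]
  [DecidableEq S] [Fintype T] [DecidableEq T] {κ : S → Type} [∀ s, Fintype (κ s)]
  [∀ s, DecidableEq (κ s)]

theorem FE_unit (ρ : (σ → ℚ_[p]) → ℝ) (hρ : Measurable ρ) (s : ℝ) :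
    FE (NU p σ) ρ (closedBall 0 1) s =
      FZ (Measure.pi fun _ : σ => mu p) (fun x => ρ (fun i => inc p (x i))) s := by
  unfold FE FZ
  congr 2
  have h1 : Measure.map (inc p) (mu p) =
      (Pool.Agent.Y230.PT.nu p).restrict (closedBall 0 1) := by
    rw [← comap_eq, (inc_meas p).map_comap, inc_range]
  have hs : SigmaFinite (Measure.map (inc p) (mu p)) := by
    rw [h1]
    infer_instance
  have h2 : Measure.map (fun (x : σ → ℤ_[p]) i => inc p (x i)) (Measure.pi fun _ : σ => mu p) =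
      (NU p σ).restrict (closedBall 0 1) := by
    rw [Measure.pi_map_pi (f := fun _ : σ => inc p) fun i => (inc_meas p).measurable.aemeasurable]
    rw [closedBall_pi _ zero_le_one]
    unfold NU
    rw [Measure.restrict_pi_pi]
    congr 1
    funext i
    rw [h1]
    rfl
  rw [← h2, lintegral_map]
  · exact ENNReal.measurable_ofReal.comp (hρ.pow_const s)
  · exact measurable_pi_lambda _ fun i => (inc_meas p).measurable.comp (measurable_pi_apply i)

/-- the size of the products of linear forms -/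
theorem sz_arr (c : (s : S) → κ s → σ → ℚ) (e : S → ℕ) (x : σ → ℤ_[p]) :
    sz (fun J => map (algebraMap ℚ ℚ_[p]) (arrM c e J)) x =
      ∏ s, ‖cL c ℚ_[p] s (fun i => inc p (x i))‖ ^ e s := by
  have h1 : (fun J : (q : Σ s, Fin (e s)) → κ q.1 => eval (fun i => inc p (x i))
      (map (algebraMap ℚ ℚ_[p]) (arrM c e J))) = fun J => ∏ q : Σ s, Fin (e s),
        (fun j => cL c ℚ_[p] q.1 (fun i => inc p (x i)) j) (J q) := by
    funext J
    rw [map_arrM]
    unfold arrM
    rw [map_prod]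
    refine Finset.prod_congr rfl fun q _ => ?_
    unfold linR cL
    rw [map_sum, Matrix.mulVecLin_apply]
    unfold Matrix.mulVec dotProduct
    refine Finset.sum_congr rfl fun i _ => ?_
    rw [map_mul, eval_C, eval_X]
    rfl
  unfold sz
  rw [h1, norm_prodv (fun (q : Σ s, Fin (e s)) (j : κ q.1) =>
    cL c ℚ_[p] q.1 (fun i => inc p (x i)) j), Fintype.prod_sigma]
  refine Finset.prod_congr rfl fun s _ => ?_
  change ∏ _y : Fin (e s), ‖fun j => cL c ℚ_[p] s (fun i => inc p (x i)) j‖ = _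
  rw [Finset.prod_const, Finset.card_univ, Fintype.card_fin]

/-- the exponents of the product -/
def tot (e : T → S → ℕ) (a : T → ℕ) (s : S) : ℕ := ∑ t, a t * e t s

theorem occurs_iff (e : T → S → ℕ) (a : T → ℕ) (s : S) : Occurs e a s ↔ tot e a s ≠ 0 := by
  unfold Occurs tot
  rw [Ne, Finset.sum_eq_zero_iff]
  push Not
  constructor
  · rintro ⟨t, h1, h2⟩
    exact ⟨t, Finset.mem_univ t, mul_ne_zero h1 h2⟩
  · rintro ⟨t, -, h⟩
    exact ⟨t, left_ne_zero_of_mul h, right_ne_zero_of_mul h⟩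

/-- the subspaces which occur -/
@[reducible] def Occ (e : T → S → ℕ) (a : T → ℕ) : Type := {s : S // Occurs e a s}

/-- the coefficients of the subspaces which occur -/
@[reducible] def cO {R : Type} (c : (s : S) → κ s → σ → R) (e : T → S → ℕ) (a : T → ℕ) (s : Occ e a) :
    κ s.1 → σ → R := c s.1

/-- the families over `ℚ_p` -/
noncomputable def fK (p : ℕ) [Fact p.Prime] (c : (s : S) → κ s → σ → ℚ) (e : T → S → ℕ) (t : T)
    (J : (q : Σ s, Fin (e t s)) → κ q.1) : MvPolynomial σ ℚ_[p] :=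
  map (algebraMap ℚ ℚ_[p]) (arrM c (e t) J)

open Classical in
theorem sz_all (c : (s : S) → κ s → σ → ℚ) (e : T → S → ℕ) (a : T → ℕ) (x : σ → ℤ_[p]) :
    ‖eval (fun i => inc p (x i)) (1 : MvPolynomial σ ℚ_[p])‖ * ∏ t, sz (fK p c e t) x ^ a t =
      ww (cL (cO c e a) ℚ_[p]) (fun s => tot e a s.1) Finset.univ (fun i => inc p (x i)) := by
  rw [map_one, norm_one, one_mul]
  unfold fK
  simp only [sz_arr]
  unfold ww
  have h1 : ∏ t, (∏ s, ‖cL c ℚ_[p] s (fun i => inc p (x i))‖ ^ e t s) ^ a t =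
      ∏ s, ‖cL c ℚ_[p] s (fun i => inc p (x i))‖ ^ tot e a s := by
    simp only [← Finset.prod_pow, ← pow_mul]
    rw [Finset.prod_comm]
    refine Finset.prod_congr rfl fun s _ => ?_
    rw [Finset.prod_pow_eq_pow_sum]
    congr 1
    exact Finset.sum_congr rfl fun t _ => mul_comm _ _
  rw [h1]
  have h2 : ∏ s, ‖cL c ℚ_[p] s (fun i => inc p (x i))‖ ^ tot e a s =
      ∏ s ∈ Finset.univ.filter (fun s => Occurs e a s),
        ‖cL c ℚ_[p] s (fun i => inc p (x i))‖ ^ tot e a s := by
    symm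
    refine Finset.prod_filter_of_ne fun s _ hs => ?_
    rw [occurs_iff]
    intro h0
    exact hs (by rw [h0, pow_zero])
  rw [h2]
  exact Finset.prod_subtype (Finset.univ.filter fun s => Occurs e a s) (fun s => by simp)
    (fun s => ‖cL c ℚ_[p] s (fun i => inc p (x i))‖ ^ tot e a s)

open Classical in
/-- the maximal number of the resonant irreducible flats in a nested set -/
noncomputable def mO (p : ℕ) (c : (s : S) → κ s → σ → ℚ) (e : T → S → ℕ) (a : T → ℕ) (z : ℂ) :
    ℕ := mA p (HL (cO c e a) ℂ) (fun s => tot e a s.1) Finset.univ z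

theorem FR_arr (c : (s : S) → κ s → σ → ℚ) (hc : ∀ s, ∃ j, c s j ≠ 0) (e : T → S → ℕ)
    (a : T → ℕ) : FR p (fun z => (mO p c e a z : ℕ∞))
      (FZ (Measure.pi fun _ : σ => mu p) (fun x => ‖eval (fun i => inc p (x i))
        (1 : MvPolynomial σ ℚ_[p])‖ * ∏ t, sz (fK p c e t) x ^ a t)) := by
  classical
  have h0 : ∀ s : Occ e a, cL (cO c e a) ℚ_[p] s ≠ 0 := by
    intro s h
    obtain ⟨j, hj⟩ := hc s.1
    obtain ⟨i, hi⟩ := Function.ne_iff.1 hj
    have h1 := congrFun (LinearMap.congr_fun h (Pi.single i 1)) j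
    rw [cL, Matrix.mulVecLin_apply, Matrix.mulVec_single_one] at h1
    apply hi
    have h2 : (algebraMap ℚ ℚ_[p]) (c s.1 j i) = 0 := h1
    rw [Pi.zero_apply]
    exact (map_eq_zero _).1 h2
  have h1 := main (cL (cO c e a) ℚ_[p]) (fun s => tot e a s.1) h0 Finset.univ
    (fun s _ => Finset.mem_univ s) (closedBall 0 1) (CO.ball _ one_pos)
  have h2 : ∀ z, mA p (Hk (cL (cO c e a) ℚ_[p])) (fun s => tot e a s.1) Finset.univ z =
      mO p c e a z := by
    intro z
    unfold mO
    convert mA_eq (cO c e a) ℚ_[p] ℂ p (fun s => tot e a s.1) Finset.univ z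
    rfl
  refine (h1.mono fun z _ => ?_).congr fun s hs => ?_
  · rw [h2 z]
  · rw [FE_unit _ (ww_cont _ _ _).measurable]
    congr 1
    funext x
    rw [sz_all]

theorem map_arrForm_K (c : (s : S) → κ s → σ → ℚ) (e : T → S → ℕ) (a : T → ℕ) :
    map (algebraMap ℚ ℚ_[p]) (arrForm c e a) =
      formK (κ := fun t => (q : Σ s, Fin (e t s)) → κ q.1) a (1 : MvPolynomial σ ℚ_[p])
        (fK p c e) := by
  have h : fK p c e = fun t J => arrM (fun s j i => algebraMap ℚ ℚ_[p] (c s j i)) (e t) J := by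
    funext t J
    exact map_arrM _ _ _ _
  rw [map_arrForm, h]
  exact arrForm_eq _ _ _

theorem FR_form (c : (s : S) → κ s → σ → ℚ) (hc : ∀ s, ∃ j, c s j ≠ 0)
    (e : T → S → ℕ) (a : T → ℕ) : FR p (fun z => (mO p c e a z + cnt p a z : ℕ∞))
      (FF (fun _ : Fin 1 => map (algebraMap ℚ ℚ_[p]) (arrForm c e a))) := by
  rw [map_arrForm_K]
  refine FR_formK (κ := fun t => (q : Σ s, Fin (e t s)) → κ q.1) a
    (fun t => ⟨fun q => (hc q.1).choose⟩) _ _ (fun z => (mO p c e a z : ℕ∞)) _
    (fun z _ => le_rfl) ?_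
  refine (FR_arr c hc e a).congr fun s hs => ?_
  unfold FF
  congr 1
  funext x
  exact (sz_genK (κ := fun t => (q : Σ s, Fin (e t s)) → κ q.1) a _ _ x).symm

end Pool.Agent.R852.SP
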